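import Pool.Agent.Lib.MP_361a6f_ag.FL.S.Stat
import Pool.Agent.Lib.MP_361a6f_ag.FL.B.AbV

/-!
# The even Kuenneth projector from an endomorphism

If an endomorphism `F` of `X` separates the even and the odd cohomology (by coprime polynomials with
rational coefficients), then the projector to the even cohomology is algebraic. This applies to the
Frobenius endomorphism (Katz and Messing), and to the multiplication by `2` on an abelian variety.
-/

open CategoryTheory AlgebraicGeometry MonoidalCategory CartesianMonoidalCategory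

universe u v w

set_option autoImplicit false
set_option linter.unusedSectionVars false

namespace Pool.Agent.Lib.MP_361a6f_ag.FL

open Pool.Agent.Lib.MP_361a6f_ag.H3 Pool.Agent.Lib.MP_361a6f_ag.SQ
  Pool.Agent.Lib.MP_361a6f_ag.PP

namespace EvP

variable {k : Type u} [Field k] {W : CohomologyData.{u, 0, w} k ℂ} {𝒱 : VarietyClass k}
  (hW : IsWeilCohomology W 𝒱) {X : Sch k} {n : ℕ} (hX : 𝒱.mem X n)

/-- the operator `u` is given by an algebraic class of codimension `n` -/
def OpA (W : CohomologyData.{u, 0, w} k ℂ) (X : Sch k) (n : ℕ) (u : Module.End ℂ (W.coh X)) :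
    Prop := ∃ γ ∈ W.alg (X ⊗ X) n, ∀ s, act W γ s = u s

include hW hX

theorem pull (F : X ⟶ X) : OpA W X n (W.pull F).toLinearMap := by
  have hXX := 𝒱.prod hX hX
  have hγ : W.push (lift F (𝟙 X)) 1 ∈ W.alg (X ⊗ X) n :=
    hW.push_alg hX hXX _ (hW.one_alg hX) (by omega)
  refine ⟨_, hγ, fun s => ?_⟩
  rw [← sub_eq_zero]
  refine hW.duality hX _ fun t => ?_
  rw [sub_mul, map_sub, act_tr hW hX hγ, bil_push_lift hW hX _ _ (one_tot hW hX), W.pull_id,
    one_mul, AlgHom.toLinearMap_apply, sub_self]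

omit hW hX in
theorem zero : OpA W X n 0 := ⟨0, zero_mem _, fun s => by
  rw [act, mul_zero, map_zero, LinearMap.zero_apply]⟩

omit hW hX in
theorem add {u u' : Module.End ℂ (W.coh X)} (h : OpA W X n u) (h' : OpA W X n u') :
    OpA W X n (u + u') := by
  obtain ⟨γ, hγ, hu⟩ := h
  obtain ⟨γ', hγ', hu'⟩ := h'
  refine ⟨γ + γ', add_mem hγ hγ', fun s => ?_⟩
  rw [LinearMap.add_apply, ← hu, ← hu', act, act, act, mul_add, map_add]

omit hW hX in
theorem smul (q : ℚ) {u : Module.End ℂ (W.coh X)} (h : OpA W X n u) :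
    OpA W X n ((q : ℂ) • u) := by
  obtain ⟨γ, hγ, hu⟩ := h
  refine ⟨(q : ℂ) • γ, CohomologyData.alg_smul q hγ, fun s => ?_⟩
  rw [LinearMap.smul_apply, ← hu, act, act, mul_smul_comm, map_smul]

/-- the iterates of `F` -/
theorem pow (F : X ⟶ X) (j : ℕ) : ∃ G : X ⟶ X,
    (W.pull G).toLinearMap = ((W.pull F).toLinearMap : Module.End ℂ (W.coh X)) ^ j := by
  induction j with
  | zero =>
    refine ⟨𝟙 X, LinearMap.ext fun x => ?_⟩
    rw [pow_zero, AlgHom.toLinearMap_apply, W.pull_id, Module.End.one_apply]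
  | succ j ih =>
    obtain ⟨G, hG⟩ := ih
    refine ⟨G ≫ F, LinearMap.ext fun x => ?_⟩
    rw [pow_succ, Module.End.mul_apply, ← hG, AlgHom.toLinearMap_apply, W.pull_comp,
      AlgHom.toLinearMap_apply, AlgHom.toLinearMap_apply]

/-- polynomials in `F` with rational coefficients -/
theorem poly (F : X ⟶ X) (p : Polynomial ℚ) : OpA W X n (Polynomial.aeval
    ((W.pull F).toLinearMap : Module.End ℂ (W.coh X)) (p.map (algebraMap ℚ ℂ))) := by
  induction p using Polynomial.induction_on' with
  | add p q hp hq =>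
    rw [Polynomial.map_add, map_add]
    exact add hp hq
  | monomial j a =>
    obtain ⟨G, hG⟩ := pow hW hX F j
    rw [Polynomial.map_monomial, Polynomial.aeval_monomial, ← hG, Module.algebraMap_end_eq_smul_id]
    have h := smul a (pull hW hX G)
    have e : (((algebraMap ℚ ℂ) a) • (LinearMap.id : W.coh X →ₗ[ℂ] W.coh X) :
        Module.End ℂ (W.coh X)) * (W.pull G).toLinearMap = (a : ℂ) • (W.pull G).toLinearMap := by
      refine LinearMap.ext fun x => ?_
      rfl
    rw [e]
    exact h

end EvP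

/-- Katz and Messing: an endomorphism that separates the even and the odd cohomology. -/
theorem evp_coprime {k : Type u} [Field k] {W : CohomologyData.{u, 0, w} k ℂ}
    {𝒱 : VarietyClass k} (hW : IsWeilCohomology W 𝒱) {X : Sch k} {n : ℕ} (hX : 𝒱.mem X n)
    (F : Sch.Mor X X) (p q : Polynomial ℚ) (hpq : IsCoprime p q)
    (hp : ∀ i x, Even i → W.Deg X i x → Polynomial.aeval
      ((W.pull F).toLinearMap : Module.End ℂ (W.coh X)) (p.map (algebraMap ℚ ℂ)) x = 0)
    (hq : ∀ i x, Odd i → W.Deg X i x → Polynomial.aeval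
      ((W.pull F).toLinearMap : Module.End ℂ (W.coh X)) (q.map (algebraMap ℚ ℂ)) x = 0) :
    EvenProjector W X n := by
  obtain ⟨a, b, hab⟩ := hpq
  obtain ⟨γ, hγ, h⟩ := EvP.poly hW hX F (b * q)
  refine ⟨γ, hγ, fun i x hx => ?_⟩
  have h1 : W.push (snd X X) (W.pull (fst X X) x * γ) = Polynomial.aeval
      ((W.pull F).toLinearMap : Module.End ℂ (W.coh X)) ((b * q).map (algebraMap ℚ ℂ)) x := h x
  refine h1.trans ?_
  by_cases hi : Even i
  · rw [if_pos hi]
    have h2 := congrArg (Polynomial.map (algebraMap ℚ ℂ)) hab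
    rw [Polynomial.map_add, Polynomial.map_mul, Polynomial.map_one] at h2
    have h3 := congrArg (fun P => (Polynomial.aeval
      ((W.pull F).toLinearMap : Module.End ℂ (W.coh X)) P) x) h2
    simp only [map_add, map_mul, map_one, LinearMap.add_apply, Module.End.mul_apply, hp i x hi hx,
      map_zero, zero_add, Module.End.one_apply] at h3
    exact h3
  · rw [if_neg hi, Polynomial.map_mul, map_mul, Module.End.mul_apply,
      hq i x (Nat.not_even_iff_odd.1 hi) hx, map_zero]

namespace EvP

variable {k : Type u} [Field k] {W : CohomologyData.{u, 0, w} k ℂ} {𝒱 : VarietyClass k}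
  (hW : IsWeilCohomology W 𝒱) {X : Sch k} {g : ℕ} (hX : 𝒱.mem X g)

include hW hX

theorem gop_mul (c : ℕ → ℂ) (hc : ∀ i j, c (i + j) = c i * c j) (x y : W.coh X) :
    gop (hW.internal hX) c (x * y) = gop (hW.internal hX) c x * gop (hW.internal hX) c y := by
  refine hW.hom_induction hX (P := fun x => gop (hW.internal hX) c (x * y)
    = gop (hW.internal hX) c x * gop (hW.internal hX) c y) x ?_ ?_ ?_
  · intro i x hx
    refine hW.hom_induction hX (P := fun y => gop (hW.internal hX) c (x * y)
      = gop (hW.internal hX) c x * gop (hW.internal hX) c y) y ?_ ?_ ?_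
    · intro j y hy
      rw [gop_apply _ _ hx, gop_apply _ _ hy, gop_apply _ _ (hW.mul_gr hX hx hy), hc,
        smul_mul_smul_comm]
    · simp
    · intro y y' h h'
      rw [mul_add, map_add, h, h', map_add, mul_add]
  · simp
  · intro x x' h h'
    rw [add_mul, map_add, h, h', map_add, add_mul]

/-- `H^0` is spanned by `1` -/
theorem zero_gr (hA : AbelianType W X g) (x : W.coh X) (hx : x ∈ W.gr X 0) :
    ∃ c : ℂ, x = c • 1 := by
  have hc : ∀ i j : ℕ, (if i + j = 0 then (1 : ℂ) else 0)
      = (if i = 0 then 1 else 0) * (if j = 0 then 1 else 0) := by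
    intro i j
    by_cases hi : i = 0
    · by_cases hj : j = 0
      · simp [hi, hj]
      · simp [hi, hj]
    · simp [hi]
  have key : ∀ x : W.coh X, ∃ c : ℂ,
      gop (hW.internal hX) (fun i => if i = 0 then (1 : ℂ) else 0) x = c • 1 := by
    intro x
    have hg := hA.gen x
    induction hg using Algebra.adjoin_induction with
    | mem y hy => exact ⟨0, by rw [gop_apply _ _ hy]; simp⟩
    | algebraMap c =>
      refine ⟨c, ?_⟩
      rw [Algebra.algebraMap_eq_smul_one, map_smul, gop_apply _ _ (hW.one_gr hX), if_pos rfl,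
        one_smul]
    | add y z _ _ hy hz =>
      obtain ⟨a, ha⟩ := hy
      obtain ⟨b, hb⟩ := hz
      exact ⟨a + b, by rw [map_add, ha, hb, add_smul]⟩
    | mul y z _ _ hy hz =>
      obtain ⟨a, ha⟩ := hy
      obtain ⟨b, hb⟩ := hz
      exact ⟨a * b, by rw [gop_mul hW hX _ hc, ha, hb, smul_mul_smul_comm, one_mul]⟩
  obtain ⟨c, h⟩ := key x
  rw [gop_apply _ _ hx, if_pos rfl, one_smul] at h
  exact ⟨c, h⟩

/-- an endomorphism that acts on `H^i` as `2^i` -/
theorem two (hA : AbelianType W X g) (hU : UnitalLaw X) :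
    ∃ F : X ⟶ X, ∀ i, ∀ x ∈ W.gr X i, W.pull F x = (2 : ℂ) ^ i • x := by
  obtain ⟨m, e, h1, h2⟩ := hU
  have h0 := zero_gr hW hX hA
  have hm : ∀ v ∈ W.gr X 1, W.pull m v = W.pull (fst X X) v + W.pull (snd X X) v :=
    fun v hv => AbV.pull_m hW hX h0 h1 h2 hv
  refine ⟨lift (𝟙 X) (𝟙 X) ≫ m, fun i x hx => ?_⟩
  have key : ∀ x : W.coh X, W.pull (lift (𝟙 X) (𝟙 X) ≫ m) x
      = gop (hW.internal hX) (fun i => (2 : ℂ) ^ i) x := by
    intro x
    have hg := hA.gen x
    induction hg using Algebra.adjoin_induction with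
    | mem y hy =>
      have hy' : y ∈ W.gr X 1 := hy
      rw [gop_apply _ _ hy', W.pull_comp, hm y hy', map_add, ← W.pull_comp, ← W.pull_comp,
        lift_fst, lift_snd, W.pull_id, pow_one, two_smul]
    | algebraMap c =>
      rw [Algebra.algebraMap_eq_smul_one, map_smul, map_smul, gop_apply _ _ (hW.one_gr hX),
        map_one, pow_zero, one_smul]
    | add y z _ _ hy hz => rw [map_add, map_add, hy, hz]
    | mul y z _ _ hy hz =>
      rw [map_mul, hy, hz, gop_mul hW hX _ (fun i j => pow_add _ _ _)]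
  rw [key, gop_apply _ _ hx]

end EvP

/-- The even Kuenneth projector of a variety with a unital law whose cohomology is that of an
abelian variety. -/
theorem evp_abelian {k : Type u} [Field k] {W : CohomologyData.{u, 0, w} k ℂ}
    {𝒱 : VarietyClass k} (hW : IsWeilCohomology W 𝒱) {X : Sch k} {g : ℕ} (hX : 𝒱.mem X g)
    (hA : AbelianType W X g) (hU : UnitalLaw X) : EvenProjector W X g := by
  obtain ⟨F, hF⟩ := EvP.two hW hX hA hU
  have hev : ∀ (p : Polynomial ℚ) (i : ℕ) (x : W.coh X), x ∈ W.gr X i → Polynomial.aeval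
      ((W.pull F).toLinearMap : Module.End ℂ (W.coh X)) (p.map (algebraMap ℚ ℂ)) x
      = ((p.eval ((2 : ℚ) ^ i) : ℚ) : ℂ) • x := by
    intro p i x hx
    have hpw : ∀ j : ℕ, (((W.pull F).toLinearMap : Module.End ℂ (W.coh X)) ^ j) x
        = ((2 : ℂ) ^ i) ^ j • x := by
      intro j
      induction j with
      | zero => rw [pow_zero, pow_zero, one_smul, Module.End.one_apply]
      | succ j ih =>
        rw [pow_succ', Module.End.mul_apply, ih, map_smul, AlgHom.toLinearMap_apply, hF i x hx,
          smul_smul, ← pow_succ]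
    induction p using Polynomial.induction_on' with
    | add p q hp hq =>
      rw [Polynomial.map_add, map_add, LinearMap.add_apply, hp, hq, Polynomial.eval_add,
        Rat.cast_add, add_smul]
    | monomial j a =>
      rw [Polynomial.map_monomial, Polynomial.aeval_monomial, Polynomial.eval_monomial,
        Module.End.mul_apply, hpw, Module.algebraMap_end_apply, smul_smul]
      push_cast
      rfl
  let f : ℕ → Polynomial ℚ := fun i => Polynomial.X - Polynomial.C ((2 : ℚ) ^ i)
  have hcop : ∀ i j, i ≠ j → IsCoprime (f i) (f j) := by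
    intro i j hij
    refine Polynomial.isCoprime_X_sub_C_of_isUnit_sub ?_
    refine isUnit_iff_ne_zero.2 (sub_ne_zero.2 fun h => hij ?_)
    exact Nat.pow_right_injective (le_refl 2) (by exact_mod_cast h)
  have hzero : ∀ (S : Finset ℕ) (i : ℕ), i ∈ S → (∏ j ∈ S, f j).eval ((2 : ℚ) ^ i) = 0 := by
    intro S i hi
    rw [Polynomial.eval_prod]
    exact Finset.prod_eq_zero hi (by simp [f])
  have htop : ∀ (P : ℕ → Prop) [DecidablePred P] (i : ℕ) (x : W.coh X), P i → x ∈ W.gr X i →
      Polynomial.aeval ((W.pull F).toLinearMap : Module.End ℂ (W.coh X))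
        ((∏ j ∈ (Finset.range (2 * g + 1)).filter P, f j).map (algebraMap ℚ ℂ)) x = 0 := by
    intro P _ i x hi hx
    by_cases h : i ≤ 2 * g
    · rw [hev _ i x hx, hzero _ i (Finset.mem_filter.2 ⟨Finset.mem_range.2 (by omega), hi⟩),
        Rat.cast_zero, zero_smul]
    · rw [hW.top_gr hX hx (by omega), map_zero]
  refine evp_coprime hW hX F (∏ j ∈ (Finset.range (2 * g + 1)).filter Even, f j)
    (∏ j ∈ (Finset.range (2 * g + 1)).filter Odd, f j) ?_ (fun i x hi hx => htop _ i x hi hx)
    (fun i x hi hx => htop _ i x hi hx)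
  refine IsCoprime.prod_left fun i hi => IsCoprime.prod_right fun j hj => hcop i j ?_
  rintro rfl
  exact Nat.not_even_iff_odd.2 (Finset.mem_filter.1 hj).2 (Finset.mem_filter.1 hi).2

end Pool.Agent.Lib.MP_361a6f_ag.FL
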