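import Pool.Agent.Lib.MP_361a6f_ag.FL.P.Defs

/-!
# The pairing host: the even and the odd part
-/

open CategoryTheory AlgebraicGeometry MonoidalCategory CartesianMonoidalCategory

universe u v w

set_option autoImplicit false
set_option linter.unusedSectionVars false

namespace Pool.Agent.Lib.MP_361a6f_ag.FL

open Pool.Agent.Lib.MP_361a6f_ag.H3 Pool.Agent.Lib.MP_361a6f_ag.SQ
  Pool.Agent.Lib.MP_361a6f_ag.PP

variable {k : Type u} [Field k] {W : CohomologyData.{u, 0, w} k ℂ} {𝒱 : VarietyClass k}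

namespace Par

theorem gr_le (X : Sch k) (i : ℕ) : W.gr X i ≤ par W X i := by
  have h : 2 * (i / 2) + i % 2 = i := by omega
  have := le_iSup (fun j : ℕ => W.gr X (2 * j + i % 2)) (i / 2)
  rw [h] at this
  exact this

theorem congr (X : Sch k) {b c : ℕ} (h : b % 2 = c % 2) : par W X b = par W X c := by
  unfold par; rw [h]

theorem ind {X : Sch k} {b : ℕ} {P : W.coh X → Prop} {x : W.coh X} (hx : x ∈ par W X b)
    (hgr : ∀ i, i % 2 = b % 2 → ∀ x ∈ W.gr X i, P x) (h0 : P 0)
    (hadd : ∀ x y, P x → P y → P (x + y)) : P x :=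
  Submodule.iSup_induction _ (motive := P) hx (fun i x hx => hgr _ (by omega) x hx) h0 hadd

theorem mem_of {X : Sch k} {i b : ℕ} (h : i % 2 = b % 2) {x : W.coh X} (hx : x ∈ W.gr X i) :
    x ∈ par W X b := by
  rw [← congr X h]; exact gr_le X i hx

theorem pow_congr {a b : ℕ} (h : a % 2 = b % 2) : (-1 : ℂ) ^ a = (-1) ^ b := by
  rw [neg_one_pow_eq_pow_mod_two, h, ← neg_one_pow_eq_pow_mod_two]

section

variable (hW : IsWeilCohomology W 𝒱) {X : Sch k} {d : ℕ} (hX : 𝒱.mem X d)
include hW hX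

theorem mul {a b : ℕ} {x y : W.coh X} (hx : x ∈ par W X a) (hy : y ∈ par W X b) :
    x * y ∈ par W X (a + b) := by
  refine ind hx (P := fun x => x * y ∈ par W X (a + b)) ?_ ?_ ?_
  · intro i hi x hx
    refine ind hy (P := fun y => x * y ∈ par W X (a + b)) ?_ ?_ ?_
    · intro j hj y hy
      exact mem_of (by omega) (hW.mul_gr hX hx hy)
    · rw [mul_zero]; exact zero_mem _
    · intro y y' h h'
      rw [mul_add]; exact add_mem h h'
  · rw [zero_mul]; exact zero_mem _
  · intro y y' h h'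
    rw [add_mul]; exact add_mem h h'

theorem comm {a b : ℕ} {x y : W.coh X} (hx : x ∈ par W X a) (hy : y ∈ par W X b) :
    x * y = (-1 : ℂ) ^ (a * b) • (y * x) := by
  refine ind hx (P := fun x => x * y = (-1 : ℂ) ^ (a * b) • (y * x)) ?_ ?_ ?_
  · intro i hi x hx
    refine ind hy (P := fun y => x * y = (-1 : ℂ) ^ (a * b) • (y * x)) ?_ ?_ ?_
    · intro j hj y hy
      rw [hW.comm_gr hX hx hy, pow_congr (a := i * j) (b := a * b)]
      rw [Nat.mul_mod, hi, hj, ← Nat.mul_mod]
    · rw [mul_zero, zero_mul, smul_zero]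
    · intro y y' h h'
      rw [mul_add, add_mul, h, h', smul_add]
  · rw [mul_zero, zero_mul, smul_zero]
  · intro y y' h h'
    rw [mul_add, add_mul, h, h', smul_add]

theorem tr {b : ℕ} (hb : Odd b) {x : W.coh X} (hx : x ∈ par W X b) : W.tr X x = 0 := by
  refine ind hx (P := fun x => W.tr X x = 0) ?_ (map_zero _) ?_
  · intro i hi x hx
    refine hW.tr_gr hX hx ?_
    rw [Nat.odd_iff] at hb
    omega
  · intro x y h h'
    rw [map_add, h, h', add_zero]

theorem pull {Y : Sch k} {e : ℕ} (hY : 𝒱.mem Y e) (f : X ⟶ Y) {b : ℕ} {y : W.coh Y}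
    (hy : y ∈ par W Y b) : W.pull f y ∈ par W X b := by
  refine ind hy (P := fun y => W.pull f y ∈ par W X b) ?_ ?_ ?_
  · intro i hi y hy
    exact mem_of hi (hW.pull_gr hX hY f hy)
  · rw [map_zero]; exact zero_mem _
  · intro y y' h h'
    rw [map_add]; exact add_mem h h'

theorem tot_le {z : W.coh X} (hz : z ∈ tot W X) : z ∈ par W X 0 := by
  refine tot_induction hW (P := fun z => z ∈ par W X 0) hz ?_ (fun _ _ h h' => add_mem h h')
  intro j z hz
  exact mem_of (by omega) (hW.alg_gr hX hz)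

theorem sup : par W X 0 ⊔ par W X 1 = ⊤ := by
  rw [eq_top_iff, ← hW.iSup_gr hX, iSup_le_iff]
  intro i x hx
  rcases Nat.even_or_odd i with h | h
  · exact Submodule.mem_sup_left (mem_of (by rw [Nat.even_iff] at h; omega) hx)
  · exact Submodule.mem_sup_right (mem_of (by rw [Nat.odd_iff] at h; omega) hx)

/-- nondegeneracy of the trace form on the even and on the odd part -/
theorem nondeg (b : ℕ) {x : W.coh X} (hx : x ∈ par W X b)
    (h : ∀ y ∈ par W X b, W.tr X (x * y) = 0) : x = 0 := by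
  refine hW.duality hX x (fun y => ?_)
  refine hW.hom_induction hX (P := fun y => W.tr X (x * y) = 0) y ?_ ?_ ?_
  · intro j y hy
    by_cases hj : j % 2 = b % 2
    · exact h y (mem_of hj hy)
    · refine tr hW hX (b := b + j) ?_ (mul hW hX hx (gr_le X j hy))
      rw [Nat.odd_iff]
      omega
  · rw [mul_zero, map_zero]
  · intro y y' h h'
    rw [mul_add, map_add, h, h', add_zero]

/-- the trace of a product of two exterior products -/
theorem tr_four {Y : Sch k} {e : ℕ} (hY : 𝒱.mem Y e) {p q : ℕ} (x x' : W.coh X) (y y' : W.coh Y)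
    (hy : y ∈ par W Y p) (hx' : x' ∈ par W X q) :
    W.tr (X ⊗ Y) ((W.pull (fst X Y) x * W.pull (snd X Y) y)
        * (W.pull (fst X Y) x' * W.pull (snd X Y) y'))
      = (-1) ^ (p * q) * (W.tr X (x * x') * W.tr Y (y * y')) := by
  have hXY := 𝒱.prod hX hY
  have h1 := comm hW hXY (pull hW hXY hY (snd X Y) hy) (pull hW hXY hX (fst X Y) hx')
  have h2 : (W.pull (fst X Y) x * W.pull (snd X Y) y)
        * (W.pull (fst X Y) x' * W.pull (snd X Y) y')
      = (-1 : ℂ) ^ (p * q) • (W.pull (fst X Y) (x * x') * W.pull (snd X Y) (y * y')) := by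
    rw [mul_assoc, ← mul_assoc (W.pull (snd X Y) y), h1, smul_mul_assoc, mul_smul_comm,
      map_mul, map_mul]
    simp only [mul_assoc]
  rw [h2, map_smul, hW.kunneth_tr hX hY, smul_eq_mul]

end

end Par

/-! ### the sign -/

theorem sn_add (a b : ℕ) : sn (a + b) = (-1) ^ (a * b) * (sn a * sn b) := by
  induction b with
  | zero => simp [sn]
  | succ b ih =>
    have : sn (a + (b + 1)) = (-1) ^ (a + b) * sn (a + b) := rfl
    rw [this, ih, sn, mul_add, mul_one, pow_add, pow_add]
    ring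

theorem sn_mul_self (a : ℕ) : sn a * sn a = 1 := by
  induction a with
  | zero => simp [sn]
  | succ a ih =>
    rw [sn]
    have : ((-1 : ℂ) ^ a) * (-1) ^ a = 1 := by rw [← pow_add, ← two_mul, pow_mul]; simp
    linear_combination (sn a * sn a) * this + ih

/-- the sign is rational -/
theorem sn_rat (a : ℕ) : ∃ q : ℚ, sn a = (q : ℂ) := by
  induction a with
  | zero => exact ⟨1, by simp [sn]⟩
  | succ a ih =>
    obtain ⟨q, hq⟩ := ih
    exact ⟨(-1) ^ a * q, by rw [sn, hq]; push_cast; rfl⟩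

end Pool.Agent.Lib.MP_361a6f_ag.FL
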