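import Pool.Agent.Lib.MP_361a6f_ag.FL.P.Par

/-!
# The pairing host, row PGB: bases of the even and the odd cohomology of the factors, adapted to
`Tr(x y)`
-/

open CategoryTheory AlgebraicGeometry MonoidalCategory CartesianMonoidalCategory

universe u v w

set_option autoImplicit false
set_option linter.unusedSectionVars false

namespace Pool.Agent.Lib.MP_361a6f_ag.FL

open Pool.Agent.Lib.MP_361a6f_ag.H3 Pool.Agent.Lib.MP_361a6f_ag.SQ
  Pool.Agent.Lib.MP_361a6f_ag.PP

namespace PBas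

variable {k : Type u} [Field k] {W : CohomologyData.{u, 0, w} k ℂ} {𝒱 : VarietyClass k}

section one

variable (hW : IsWeilCohomology W 𝒱) {X : Sch k} {n : ℕ} (hX : 𝒱.mem X n)

theorem gr_le_par {j p : ℕ} (h : j % 2 = p % 2) : W.gr X j ≤ par W X p :=
  fun _ hx => Par.mem_of h hx

theorem par_induction {p : ℕ} {P : W.coh X → Prop} {x : W.coh X} (hx : x ∈ par W X p)
    (h1 : ∀ j, j % 2 = p % 2 → ∀ x ∈ W.gr X j, P x) (h0 : P 0)
    (ha : ∀ x y, P x → P y → P (x + y)) : P x := Par.ind hx h1 h0 ha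

include hW hX in
/-- different parities are orthogonal -/
theorem tr_par_ne {p q : ℕ} {x y : W.coh X} (hx : x ∈ par W X p) (hy : y ∈ par W X q)
    (hpq : p % 2 ≠ q % 2) : W.tr X (x * y) = 0 := by
  refine par_induction hx (P := fun x => W.tr X (x * y) = 0) ?_ ?_ ?_
  · intro i hi x hx
    refine par_induction hy (P := fun y => W.tr X (x * y) = 0) ?_ ?_ ?_
    · intro j hj y hy
      exact hW.tr_gr hX (hW.mul_gr hX hx hy) (by omega)
    · rw [mul_zero, map_zero]
    · intro a b ha hb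
      rw [mul_add, map_add, ha, hb, add_zero]
  · rw [zero_mul, map_zero]
  · intro a b ha hb
    rw [add_mul, map_add, ha, hb, add_zero]

include hW hX in
/-- the symmetry of the form -/
theorem tr_symm_par {p : ℕ} {x y : W.coh X} (hx : x ∈ par W X p) (hy : y ∈ par W X p) :
    W.tr X (y * x) = (-1 : ℂ) ^ p * W.tr X (x * y) := by
  refine par_induction hx (P := fun x => W.tr X (y * x) = (-1 : ℂ) ^ p * W.tr X (x * y)) ?_ ?_ ?_
  · intro i hi x hx
    refine par_induction hy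
      (P := fun y => W.tr X (y * x) = (-1 : ℂ) ^ p * W.tr X (x * y)) ?_ ?_ ?_
    · intro j hj y hy
      rw [hW.comm_gr hX hy hx, map_smul, smul_eq_mul]
      congr 1
      rcases Nat.even_or_odd p with hp | hp
      · have h1 : Even (j * i) := by
          have : Even j := by rw [Nat.even_iff] at hp ⊢; omega
          exact this.mul_right _
        rw [h1.neg_one_pow, hp.neg_one_pow]
      · have h1 : Odd (j * i) := by
          have h2 : Odd j := by rw [Nat.odd_iff] at hp ⊢; omega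
          have h3 : Odd i := by rw [Nat.odd_iff] at hp ⊢; omega
          exact h2.mul h3
        rw [h1.neg_one_pow, hp.neg_one_pow]
    · rw [mul_zero, zero_mul, map_zero, mul_zero]
    · intro a b ha hb
      rw [add_mul, mul_add, map_add, map_add, ha, hb, mul_add]
  · rw [mul_zero, zero_mul, map_zero, mul_zero]
  · intro a b ha hb
    rw [mul_add, add_mul, map_add, map_add, ha, hb, mul_add]

/-- the form on the classes of parity `p` -/
noncomputable def trG (W : CohomologyData.{u, 0, w} k ℂ) (X : Sch k) (p : ℕ) :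
    par W X p →ₗ[ℂ] par W X p →ₗ[ℂ] ℂ :=
  LinearMap.mk₂ ℂ (fun x y => W.tr X ((x : W.coh X) * (y : W.coh X)))
    (fun x x' y => by rw [Submodule.coe_add, add_mul, map_add])
    (fun c x y => by rw [Submodule.coe_smul, smul_mul_assoc, map_smul])
    (fun x y y' => by rw [Submodule.coe_add, mul_add, map_add])
    (fun c x y => by rw [Submodule.coe_smul, mul_smul_comm, map_smul])

theorem trG_apply (p : ℕ) (x y : par W X p) :
    trG W X p x y = W.tr X ((x : W.coh X) * (y : W.coh X)) := rfl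

include hW hX in
theorem trG_nondeg (p : ℕ) (x : par W X p) (h : ∀ y, trG W X p x y = 0) : x = 0 := by
  apply Subtype.ext
  refine hW.duality hX (x : W.coh X) (fun y => ?_)
  refine hW.hom_induction hX (P := fun y => W.tr X ((x : W.coh X) * y) = 0) y ?_ ?_ ?_
  · intro j y hy
    by_cases hij : j % 2 = p % 2
    · exact h ⟨y, gr_le_par hij hy⟩
    · exact tr_par_ne hW hX x.2 (gr_le_par (p := j) rfl hy) (fun h => hij h.symm)
  · rw [mul_zero, map_zero]
  · intro a b ha hb
    rw [mul_add, map_add, ha, hb, add_zero]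

end one

/-- the class of `H(X_a)` that belongs to a homogeneous class of `H(X_b)`, zero if `b ≠ a` -/
noncomputable def ins {m : ℕ} (X : Fin m → Sch k) (a b : Fin m) (x : W.coh (X b)) : W.coh (X a) :=
  if h : b = a then h ▸ x else 0

theorem ins_self {m : ℕ} (X : Fin m → Sch k) (a : Fin m) (x : W.coh (X a)) :
    ins X a a x = x := by rw [ins, dif_pos rfl]

theorem ins_ne {m : ℕ} (X : Fin m → Sch k) {a b : Fin m} (h : b ≠ a) (x : W.coh (X b)) :
    ins X a b x = 0 := by rw [ins, dif_neg h]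

/-- Adapted bases. -/
theorem exists_bas (hW : IsWeilCohomology W 𝒱) {m : ℕ} {X : Fin m → Sch k} {n : Fin m → ℕ}
    (hX : ∀ a, 𝒱.mem (X a) (n a)) :
    ∃ (I : Type) (_ : Fintype I) (_ : DecidableEq I) (D : Dat I (Fin m × ℕ))
      (e : ∀ a, I → W.coh (X a)), (∀ l, D.odd l ↔ Odd l.2) ∧ (∀ x, (D.typ x).2 < 2) ∧
      (∀ a x, (D.typ x).1 ≠ a → e a x = 0) ∧ (∀ a x, e a x ∈ par W (X a) (D.typ x).2) ∧
      (∀ a x y, (D.typ x).1 = a → (D.typ y).1 = a →
        W.tr (X a) (e a x * e a y) = if y = D.τ x then D.s x else 0) ∧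
      ∀ a, Submodule.span ℂ (Set.range (e a)) = ⊤ := by
  classical
  have : ∀ a, Module.Finite ℂ (W.coh (X a)) := fun a => hW.graded.finite (hX a)
  let A : Type := Fin m × Fin 2
  obtain ⟨N, b, t, D0, h1, h2, h3, h4⟩ := exists_dat.{w} (Λ := A)
    (fun α => par W (X α.1) (α.2 : ℕ)) (fun α => Odd (α.2 : ℕ))
    (fun α => trG W (X α.1) (α.2 : ℕ))
    (by
      intro α x y hα
      rw [trG_apply, trG_apply, tr_symm_par hW (hX α.1) y.2 x.2, hα.neg_one_pow, neg_one_mul])
    (by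
      intro α x y hα
      rw [trG_apply, trG_apply, tr_symm_par hW (hX α.1) y.2 x.2,
        (Nat.not_odd_iff_even.1 hα).neg_one_pow, one_mul])
    (by
      intro α x hx
      exact trG_nondeg hW (hX α.1) (α.2 : ℕ) x hx)
  let D1 : Dat (Σ α : A, Fin (N α)) (Fin m × ℕ) :=
    { typ := fun i => (i.1.1, (i.1.2 : ℕ))
      odd := fun l => Odd l.2
      τ := D0.τ
      s := D0.s
      τ_τ := D0.τ_τ
      typ_τ := fun i => by rw [h3 i]
      s_val := D0.s_val
      even_τ := fun i hi => D0.even_τ i (by rw [h2, h1]; exact hi)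
      odd_τ := fun i hi => D0.odd_τ i (by rw [h2, h1]; exact hi) }
  let e : ∀ a, (Σ α : A, Fin (N α)) → W.coh (X a) := fun a i =>
    ins X a i.1.1 ((b i.1 i.2 : par W (X i.1.1) (i.1.2 : ℕ)) : W.coh (X i.1.1))
  have he : ∀ (a : Fin m) (i : Fin 2) (j : Fin (N ⟨a, i⟩)),
      e a ⟨⟨a, i⟩, j⟩ = ((b ⟨a, i⟩ j : par W (X a) (i : ℕ)) : W.coh (X a)) := fun a i j =>
    ins_self X a _
  refine ⟨Σ α : A, Fin (N α), inferInstance, inferInstance, D1, e, fun l => Iff.rfl, ?_, ?_, ?_,
    ?_, ?_⟩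
  · rintro ⟨⟨a, i⟩, j⟩
    exact i.2
  · intro a x hx
    exact ins_ne X hx _
  · rintro a ⟨⟨c, i⟩, j⟩
    by_cases hc : c = a
    · subst hc
      rw [he]
      exact (b ⟨c, i⟩ j).2
    · have : e a ⟨⟨c, i⟩, j⟩ = 0 := ins_ne X hc _
      rw [this]
      exact zero_mem _
  · rintro a ⟨⟨c, i⟩, j⟩ ⟨⟨c', i'⟩, j'⟩ hc hc'
    change c = a at hc
    change c' = a at hc'
    subst hc
    subst hc'
    rw [he, he]
    by_cases hi : i = i'
    · subst hi
      have h5 := h4 ⟨c', i⟩ j j'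
      rw [trG_apply] at h5
      rw [h5]
      refine if_congr ?_ rfl rfl
      show j' = t ⟨c', i⟩ j ↔ (⟨⟨c', i⟩, j'⟩ : Σ α : A, Fin (N α)) = D0.τ ⟨⟨c', i⟩, j⟩
      rw [h3]
      constructor
      · intro h; rw [h]
      · intro h; simpa using h
    · have h5 : (i : ℕ) % 2 ≠ (i' : ℕ) % 2 := by
        have h6 := i.2
        have h7 := i'.2
        intro h
        apply hi
        apply Fin.ext
        omega
      rw [tr_par_ne hW (hX c') (b ⟨c', i⟩ j).2 (b ⟨c', i'⟩ j').2 h5, if_neg]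
      show ¬ (⟨⟨c', i'⟩, j'⟩ : Σ α : A, Fin (N α)) = D0.τ ⟨⟨c', i⟩, j⟩
      rw [h3]
      intro h
      apply hi
      have h6 := congrArg Sigma.fst h
      have h7 : (⟨c', i'⟩ : A) = ⟨c', i⟩ := h6
      simpa using h7.symm
  · intro a
    rw [eq_top_iff, ← (hW.internal (hX a)).submodule_iSup_eq_top, iSup_le_iff]
    intro i x hx
    have hi : i % 2 < 2 := Nat.mod_lt _ two_pos
    have hx' : x ∈ par W (X a) (((⟨i % 2, hi⟩ : Fin 2) : ℕ)) := gr_le_par (by simp) hx
    have h5 := (b ⟨a, ⟨i % 2, hi⟩⟩).sum_repr ⟨x, hx'⟩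
    have h6 : x = ∑ j, (b ⟨a, ⟨i % 2, hi⟩⟩).repr ⟨x, hx'⟩ j •
        ((b ⟨a, ⟨i % 2, hi⟩⟩ j : par W (X a) ((⟨i % 2, hi⟩ : Fin 2) : ℕ)) : W.coh (X a)) := by
      have := congrArg (Subtype.val) h5
      rw [AddSubmonoidClass.coe_finsetSum] at this
      exact this.symm
    rw [h6]
    refine Submodule.sum_mem _ fun j _ => Submodule.smul_mem _ _ (Submodule.subset_span ?_)
    exact ⟨⟨⟨a, ⟨i % 2, hi⟩⟩, j⟩, he a ⟨i % 2, hi⟩ j⟩

end PBas

/-- Row PGB. -/
theorem pgb : PGbStatement.{u, w} := by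
  intro k _ W 𝒱 hW m X n hX hE
  obtain ⟨I, _, _, D, e, h1, h2, h3, h4, h5, h6⟩ := PBas.exists_bas hW hX
  exact ⟨{ hW := hW, X := X, n := n, mem := hX, eps := hE, I := I, D := D, odd_iff := h1,
           lt_two := h2, e := e, e_ne := h3, e_par := h4, e_tr := h5, e_span := h6 }, rfl, rfl⟩

end Pool.Agent.Lib.MP_361a6f_ag.FL
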