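import Pool.Agent.Lib.MP_361a6f_ag.FL.P.Defs
import Pool.Agent.Lib.MP_361a6f_ag.FL.GC

/-!
# Rows PGC and POM: contraction and the invariant tensors of length two (Poincaré pairing)
-/

open CategoryTheory AlgebraicGeometry MonoidalCategory CartesianMonoidalCategory

universe u v w

set_option autoImplicit false

namespace Pool.Agent.Lib.MP_361a6f_ag.FL

open Pool.Agent.Lib.MP_361a6f_ag.H3 Pool.Agent.Lib.MP_361a6f_ag.SQ
  Pool.Agent.Lib.MP_361a6f_ag.PP

namespace PGC

theorem sn_mul_sn : ∀ r : ℕ, sn r * sn r = 1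
  | 0 => by rw [sn, one_mul]
  | r + 1 => by
    have h := sn_mul_sn r
    have e : sn (r + 1) * sn (r + 1) = ((-1 : ℂ) ^ r * (-1) ^ r) * (sn r * sn r) := by
      rw [sn]; ring
    rw [e, h, mul_one, ← mul_pow]
    norm_num

/-- the sign as a rational number -/
def snQ : ℕ → ℚ
  | 0 => 1
  | r + 1 => (-1) ^ r * snQ r

theorem cast_snQ : ∀ r : ℕ, ((snQ r : ℚ) : ℂ) = sn r
  | 0 => by rw [snQ, sn]; norm_num
  | r + 1 => by
    rw [snQ, sn, ← cast_snQ r]
    push_cast
    rfl

variable {k : Type u} [Field k] {W : CohomologyData.{u, 0, w} k ℂ} {𝒱 : VarietyClass k} {m : ℕ}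
  (H : PHost W 𝒱 m)

/-- multiplication by the sign of the number of the odd letters -/
noncomputable def sm {L : ℕ} (u : Ten H.I L) : Ten H.I L := fun w => sn (H.od w) * u w

theorem sm_sm {L : ℕ} (u : Ten H.I L) : sm H (sm H u) = u := by
  funext w
  rw [sm, sm, ← mul_assoc, sn_mul_sn, one_mul]

theorem sm_mem (hsl : H.SlotFacts) {L : ℕ} {u : Ten H.I L} (hu : u ∈ H.At L) :
    sm H u ∈ H.At L := by
  have h := hsl L (fun f => snQ (∑ i, f i)) u hu
  have e : (fun w => ((snQ (∑ i, (H.D.typ (w i)).2) : ℚ) : ℂ) * u w) = sm H u := by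
    funext w
    rw [cast_snQ]
    rfl
  rw [← e]
  exact h

theorem at_cast {L L' : ℕ} (h : L = L') {u : Ten H.I L} (hu : u ∈ H.At L) :
    (fun w : Fin L' → H.I => u (w ∘ Fin.cast h)) ∈ H.At L' := by
  subst h
  exact hu

theorem tc_mem {P : Prd m} {z : W.coh (P.obj H.X)} (hz : z ∈ tot W (P.obj H.X)) :
    H.tc P z ∈ H.At P.size :=
  AddSubgroup.subset_closure (Or.inr ⟨P, rfl, z, hz, rfl⟩)

theorem rat_mem (L : ℕ) (q : ℚ) (u : Ten H.I L) (hu : u ∈ H.At L) : (q : ℂ) • u ∈ H.At L := by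
  refine AddSubgroup.closure_induction (p := fun u _ => (q : ℂ) • u ∈ H.At L) ?_ ?_ ?_ ?_ hu
  · rintro _ (⟨rfl, q', rfl⟩ | ⟨P, rfl, z, hz, rfl⟩)
    · refine AddSubgroup.subset_closure (Or.inl ⟨rfl, q * q', ?_⟩)
      funext w
      simp
    · have := tc_mem H (tot_smul H.hW (H.memP P) q hz)
      rw [map_smul] at this
      exact this
  · rw [smul_zero]; exact zero_mem _
  · intro a b _ _ ha hb
    rw [smul_add]; exact add_mem ha hb
  · intro a _ ha
    rw [smul_neg]; exact neg_mem ha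

/-- the trace in coordinates -/
theorem psi_sm (hge : H.GeFacts) (P : Prd m) (z z' : W.coh (P.obj H.X)) :
    psiT H.D (sm H (H.tc P z)) (H.tc P z') = W.tr (P.obj H.X) (z * z') := by
  rw [hge.tr_tc, psiT]
  refine Finset.sum_congr rfl fun w _ => ?_
  rw [sm]
  ring

/-- the coordinates of a contraction -/
theorem cont_tc (hge : H.GeFacts) (P Q : Prd m) (z : W.coh (P.obj H.X))
    (y : W.coh ((Prd.prod P Q).obj H.X)) :
    cont H.D (sm H (H.tc P z)) (H.tc (.prod P Q) y)
      = H.tc Q (cor W (X := P.obj H.X) (Y := Q.obj H.X) y z) := by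
  let T : W.coh (P.obj H.X ⊗ Q.obj H.X) →ₗ[ℂ] Ten H.I (P.size + Q.size) := H.tc (.prod P Q)
  have hT : ∀ x y, T (W.pull (fst (P.obj H.X) (Q.obj H.X)) x
      * W.pull (snd (P.obj H.X) (Q.obj H.X)) y) = outer (H.tc P x) (H.tc Q y) :=
    hge.tc_outer P Q
  have key : ∀ y : W.coh (P.obj H.X ⊗ Q.obj H.X), cont H.D (sm H (H.tc P z)) (T y)
      = H.tc Q (cor W y z) := by
    intro y
    refine prod_induction H.hW (H.memP P) (H.memP Q) (P := fun y =>
      cont H.D (sm H (H.tc P z)) (T y) = H.tc Q (cor W y z)) y ?_ ?_ ?_ ?_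
    · intro x₁ x₂
      rw [hT, GC.cont_outer, psi_sm H hge, cor_ext H.hW (H.memP P) (H.memP Q), map_smul]
    · rw [map_zero, GC.zero_cont, cor_zero, LinearMap.zero_apply, map_zero]
    · intro a b ha hb
      rw [map_add, GC.add_cont, ha, hb, cor_add, LinearMap.add_apply, map_add]
    · intro x a ha
      rw [map_smul, GC.smul_cont, ha, cor_smul, LinearMap.smul_apply, map_smul]
  exact key y

/-- the contraction of the coordinates of algebraic classes -/
theorem cont_gen (hge : H.GeFacts) (hgr : H.RelFacts) (P R : Prd m) (c : ℕ)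
    (h : R.size = P.size + c) (z : W.coh (P.obj H.X)) (hz : z ∈ tot W (P.obj H.X))
    (y : W.coh (R.obj H.X)) (hy : y ∈ tot W (R.obj H.X)) :
    cont H.D (sm H (H.tc P z)) (fun w => H.tc R y (w ∘ Fin.cast h)) ∈ H.At c := by
  have hfit : ∀ w', sm H (H.tc P z) w' ≠ 0 → ∀ i, (H.D.typ (w' i)).1 = P.lw i := by
    intro w' hw' i
    by_contra hne
    exact hw' (by rw [sm, hge.tc_off P z w' ⟨i, hne⟩, mul_zero])
  rcases Nat.eq_zero_or_pos c with rfl | hc
  · -- the value is a rational number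
    have h' : R.size = P.size := h
    have hval : cont H.D (sm H (H.tc P z)) (fun w => H.tc R y (w ∘ Fin.cast h))
        = fun _ => ∑ w', sg H.D w' * (sm H (H.tc P z) w' *
          H.tc R y ((H.D.τ ∘ w') ∘ Fin.cast h')) := by
      funext w
      rw [cont]
      refine Finset.sum_congr rfl fun w' _ => ?_
      have : (Fin.append (H.D.τ ∘ w') w) ∘ Fin.cast h = (H.D.τ ∘ w') ∘ Fin.cast h' := by
        funext i
        rw [Function.comp_apply, Function.comp_apply, Fin.append_right_nil _ _ rfl]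
        rfl
      rw [this]
    rw [hval]
    by_cases hw : ∀ i, P.lw i = R.lw (Fin.cast h'.symm i)
    · obtain ⟨h2, h3⟩ := hgr.tc P R (hgr.coh P R h'.symm hw)
      obtain ⟨y', hy', h4⟩ := h3 y hy
      have h5 : ∑ w', sg H.D w' * (sm H (H.tc P z) w' * H.tc R y ((H.D.τ ∘ w') ∘ Fin.cast h'))
          = psiT H.D (sm H (H.tc P z)) (H.tc P y') := by
        rw [psiT]
        refine Finset.sum_congr rfl fun w' _ => ?_
        rw [h4]
      obtain ⟨q, hq⟩ := tot_tr H.hW (H.memP P) (tot_mul H.hW (H.memP P) hz hy')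
      refine AddSubgroup.subset_closure (Or.inl ⟨rfl, q, ?_⟩)
      rw [h5, psi_sm H hge, ← hq]
    · push Not at hw
      obtain ⟨i, hi⟩ := hw
      refine AddSubgroup.subset_closure (Or.inl ⟨rfl, 0, ?_⟩)
      funext _
      rw [Rat.cast_zero]
      refine Finset.sum_eq_zero fun w' _ => ?_
      by_cases h0 : sm H (H.tc P z) w' = 0
      · rw [h0, zero_mul, mul_zero]
      · rw [hge.tc_off R y _ ⟨Fin.cast h'.symm i, ?_⟩, mul_zero, mul_zero]
        have h1 := hfit w' h0 i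
        rw [Function.comp_apply, Function.comp_apply, H.D.typ_τ]
        have h2 : Fin.cast h' (Fin.cast h'.symm i) = i := rfl
        rw [h2, h1]
        exact hi
  · obtain ⟨P₁, Q, hP₁, hQ, hR⟩ := hgr.split R P.size c P.size_posC hc h
    subst hQ
    by_cases hw : ∀ i, P.lw i = P₁.lw (Fin.cast hP₁.symm i)
    · have hrel : H.Rel (.prod P Q) R :=
        hgr.trans _ _ _ (hgr.prod P Q P₁ Q (hgr.coh P P₁ hP₁.symm hw) (hgr.refl Q))
          (hgr.symm _ _ hR)
      obtain ⟨h2, h3⟩ := hgr.tc (.prod P Q) R hrel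
      obtain ⟨y', hy', h4⟩ := h3 y hy
      have h5 : (fun w : Fin (P.size + Q.size) → H.I => H.tc R y (w ∘ Fin.cast h))
          = H.tc (.prod P Q) y' := by
        funext w
        exact (h4 w).symm
      rw [h5, cont_tc H hge]
      exact tc_mem H (GeoCont.algCor_tot H.hW (H.memP P) (H.memP Q) (cor_algCor hy') hz)
    · push Not at hw
      obtain ⟨i, hi⟩ := hw
      obtain ⟨h2, h3⟩ := hgr.tc (.prod P₁ Q) R (hgr.symm _ _ hR)
      obtain ⟨y', hy', h4⟩ := h3 y hy
      have h6 : P.size + Q.size = P₁.size + Q.size := by rw [hP₁]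
      have h5 : cont H.D (sm H (H.tc P z)) (fun w : Fin (P.size + Q.size) → H.I =>
          H.tc R y (w ∘ Fin.cast h)) = 0 := by
        funext w
        rw [cont, Pi.zero_apply]
        refine Finset.sum_eq_zero fun w' _ => ?_
        by_cases h0 : sm H (H.tc P z) w' = 0
        · rw [h0, zero_mul, mul_zero]
        · have h7 := h4 ((Fin.append (H.D.τ ∘ w') w) ∘ Fin.cast h6.symm)
          have h8 : H.tc (.prod P₁ Q) y' ((Fin.append (H.D.τ ∘ w') w) ∘ Fin.cast h6.symm)
              = H.tc R y (Fin.append (H.D.τ ∘ w') w ∘ Fin.cast h) := h7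
          rw [← h8, hge.tc_off (.prod P₁ Q) y' _
            ⟨Fin.castAdd Q.size (Fin.cast hP₁.symm i), ?_⟩, mul_zero, mul_zero]
          show (H.D.typ (Fin.append (H.D.τ ∘ w') w (Fin.castAdd Q.size i))).1
            ≠ Fin.append P₁.lw Q.lw (Fin.castAdd Q.size (Fin.cast hP₁.symm i))
          rw [Fin.append_left, Fin.append_left, Function.comp_apply, H.D.typ_τ, hfit w' h0 i]
          exact hi
      rw [h5]
      exact zero_mem _

theorem sm_add {L : ℕ} (u v : Ten H.I L) : sm H (u + v) = sm H u + sm H v := by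
  funext w
  simp only [sm, Pi.add_apply, mul_add]

theorem sm_neg {L : ℕ} (u : Ten H.I L) : sm H (-u) = -sm H u := by
  funext w
  simp only [sm, Pi.neg_apply, mul_neg]

theorem sm_zero {L : ℕ} : sm H (0 : Ten H.I L) = 0 := by
  funext w
  simp only [sm, Pi.zero_apply, mul_zero]

/-- contractions, with the sign -/
theorem cont_mem' (hge : H.GeFacts) (hgr : H.RelFacts) (p c : ℕ) :
    ∀ u ∈ H.At p, ∀ v ∈ H.At (p + c), cont H.D (sm H u) v ∈ H.At c := by
  intro u hu
  refine AddSubgroup.closure_induction (p := fun u _ => ∀ v ∈ H.At (p + c),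
    cont H.D (sm H u) v ∈ H.At c) ?_ ?_ ?_ ?_ hu
  · rintro _ (⟨rfl, q, rfl⟩ | ⟨P, rfl, z, hz, rfl⟩) v hv
    · have h0 : 0 + c = c := Nat.zero_add c
      have h1 := rat_mem H c q _ (at_cast H h0 hv)
      have h2 : cont H.D (sm H (fun _ => (q : ℂ))) v
          = (q : ℂ) • (fun w : Fin c → H.I => v (w ∘ Fin.cast h0)) := by
        funext w
        rw [cont, Fintype.sum_unique, Pi.smul_apply, smul_eq_mul, sg, sm, PHost.od]
        rw [Finset.univ_eq_empty, Finset.prod_empty, Finset.sum_empty, one_mul, sn, one_mul]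
        congr 2
        rw [Fin.append_left_nil _ _ rfl]
      rw [h2]
      exact h1
    · refine AddSubgroup.closure_induction (p := fun v _ =>
        cont H.D (sm H (fun w => H.tc P z (w ∘ Fin.cast rfl))) v ∈ H.At c) ?_ ?_ ?_ ?_ hv
      · rintro _ (⟨h, _⟩ | ⟨R, h, y, hy, rfl⟩)
        · have := P.size_posC
          omega
        · exact cont_gen H hge hgr P R c h z hz y hy
      · rw [GC.zero_cont]; exact zero_mem _
      · intro a b _ _ ha hb
        rw [GC.add_cont]; exact add_mem ha hb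
      · intro a _ ha
        rw [GC.neg_cont]; exact neg_mem ha
  · intro v _
    rw [sm_zero, GC.cont_zero]; exact zero_mem _
  · intro a b _ _ ha hb v hv
    rw [sm_add, GC.cont_add]; exact add_mem (ha v hv) (hb v hv)
  · intro a _ ha v hv
    rw [sm_neg, GC.cont_neg]; exact neg_mem (ha v hv)

/-- Row PGC: contractions. -/
theorem cont_mem (hge : H.GeFacts) (hgr : H.RelFacts) (hsl : H.SlotFacts) (p c : ℕ) :
    ∀ u ∈ H.At p, ∀ v ∈ H.At (p + c), cont H.D u v ∈ H.At c := by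
  intro u hu v hv
  have h := cont_mem' H hge hgr p c (sm H u) (sm_mem H hsl hu) v hv
  rwa [sm_sm] at h

/-- the diagonal class is algebraic -/
theorem diag_tot {X : Sch k} {n : ℕ} (hW : IsWeilCohomology W 𝒱) (hX : 𝒱.mem X n) :
    W.push (lift (𝟙 X) (𝟙 X) : X ⟶ X ⊗ X) 1 ∈ tot W (X ⊗ X) :=
  tot_push hW hX (𝒱.prod hX hX) _ (one_tot hW hX)

/-- the trace against the diagonal class -/
theorem tr_diag {X : Sch k} {n : ℕ} (hW : IsWeilCohomology W 𝒱) (hX : 𝒱.mem X n)
    (x y : W.coh X) :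
    W.tr (X ⊗ X) (W.push (lift (𝟙 X) (𝟙 X) : X ⟶ X ⊗ X) 1 *
      (W.pull (fst X X) x * W.pull (snd X X) y)) = W.tr X (x * y) := by
  rw [hW.push_adj hX (𝒱.prod hX hX), one_mul, map_mul, ← W.pull_comp, ← W.pull_comp, lift_fst,
    lift_snd, W.pull_id, W.pull_id]

/-- Row POM: the invariant tensors of length two. -/
theorem om_mem (hge : H.GeFacts) (hsl : H.SlotFacts) (α : Fin m × ℕ) : om H.D α ∈ H.At 2 := by
  obtain ⟨a, d⟩ := α
  have h1 := tc_mem H (P := .prod (.leaf a) (.leaf a)) (diag_tot H.hW (H.mem a))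
  have h2 := hsl 2 (fun f => if f 0 = d ∧ f 1 = d then snQ (2 * d) else 0) _ h1
  have h3 : om H.D (a, d) = fun w : Fin 2 → H.I =>
      (((if (H.D.typ (w 0)).2 = d ∧ (H.D.typ (w 1)).2 = d then snQ (2 * d) else 0 : ℚ)) : ℂ) *
        H.tc (.prod (.leaf a) (.leaf a)) (W.push (lift (𝟙 (H.X a)) (𝟙 (H.X a)) :
          H.X a ⟶ H.X a ⊗ H.X a) 1) w := by
    funext w
    have h4 : H.tc (.prod (.leaf a) (.leaf a)) (W.push (lift (𝟙 (H.X a)) (𝟙 (H.X a)) :
          H.X a ⟶ H.X a ⊗ H.X a) 1) w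
        = sg H.D w * sn (H.od w) *
          W.tr (H.X a) (H.e a (H.D.τ (w 0)) * H.e a (H.D.τ (w 1))) := by
      rw [← tr_diag H.hW (H.mem a)]
      rfl
    rw [h4, om]
    by_cases h0 : H.D.typ (w 0) = (a, d) ∧ w 1 = H.D.τ (w 0)
    · obtain ⟨e1, e2⟩ := h0
      rw [if_pos ⟨e1, e2⟩, e2, H.D.typ_τ, H.D.τ_τ, e1, if_pos ⟨rfl, rfl⟩, cast_snQ,
        H.e_tr a _ _ (by rw [H.D.typ_τ, e1]) (by rw [e1]), H.D.τ_τ, if_pos rfl]
      have e3 : sg H.D w = H.D.s (w 0) * H.D.s (H.D.τ (w 0)) := by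
        rw [sg, Fin.prod_univ_two, e2]
      have e4 : H.od w = 2 * d := by
        rw [PHost.od, Fin.sum_univ_two, e2, H.D.typ_τ, e1]
        ring
      rw [e3, e4]
      have e5 := sn_mul_sn (2 * d)
      have e6 : H.D.s (H.D.τ (w 0)) * H.D.s (H.D.τ (w 0)) = 1 := by
        rcases H.D.s_val (H.D.τ (w 0)) with h | h <;> rw [h] <;> norm_num
      calc H.D.s (w 0) = H.D.s (w 0) * (sn (2 * d) * sn (2 * d)) *
            (H.D.s (H.D.τ (w 0)) * H.D.s (H.D.τ (w 0))) := by rw [e5, e6, mul_one, mul_one]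
        _ = _ := by ring
    · rw [if_neg h0]
      by_cases ha : (H.D.typ (w 0)).1 = a
      · by_cases hb : (H.D.typ (w 1)).1 = a
        · rw [H.e_tr a _ _ (by rw [H.D.typ_τ]; exact ha) (by rw [H.D.typ_τ]; exact hb), H.D.τ_τ]
          by_cases hc : H.D.τ (w 1) = w 0
          · rw [if_pos hc]
            have hc' : w 1 = H.D.τ (w 0) := by rw [← hc, H.D.τ_τ]
            rw [if_neg]
            · simp
            · rintro ⟨e1, -⟩
              exact h0 ⟨Prod.ext ha e1, hc'⟩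
          · rw [if_neg hc, mul_zero, mul_zero]
        · rw [H.e_ne a (H.D.τ (w 1)) (by rw [H.D.typ_τ]; exact hb), mul_zero, map_zero, mul_zero,
            mul_zero]
      · rw [H.e_ne a (H.D.τ (w 0)) (by rw [H.D.typ_τ]; exact ha), zero_mul, map_zero, mul_zero,
          mul_zero]
  rw [h3]
  exact h2

end PGC

/-- Row PGC. -/
theorem pgc (ge : PGeStatement.{u, w}) (gr : PGrStatement.{u, w}) (sl : PSlStatement.{u, w}) :
    PGcStatement.{u, w} := fun H p c => PGC.cont_mem H (ge H) (gr H) (sl H) p c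

/-- Row POM. -/
theorem pom (ge : PGeStatement.{u, w}) (sl : PSlStatement.{u, w}) : POmStatement.{u, w} :=
  fun H α => PGC.om_mem H (ge H) (sl H) α

end Pool.Agent.Lib.MP_361a6f_ag.FL
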