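import Pool.Agent.Lib.MP_361a6f_ag.FL.P.Par
import Pool.Agent.Lib.MP_361a6f_ag.PP.StarAlg

/-!
# The pairing host, rows PSL and PGP: functions of the parities, permutations of the slots
-/

open CategoryTheory AlgebraicGeometry MonoidalCategory CartesianMonoidalCategory

universe u v w

set_option linter.unusedSectionVars false

namespace Pool.Agent.Lib.MP_361a6f_ag.FL

open Pool.Agent.Lib.MP_361a6f_ag.H3 Pool.Agent.Lib.MP_361a6f_ag.SQ
  Pool.Agent.Lib.MP_361a6f_ag.PP

variable {k : Type u} [Field k] {m : ℕ}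

namespace PGP

noncomputable section

variable {W : CohomologyData.{u, 0, w} k ℂ} {𝒱 : VarietyClass k} (H : PHost W 𝒱 m)

/-- additive maps on the system `At` -/
theorem at_map {L L' : ℕ} (T : Ten H.I L →+ Ten H.I L')
    (h0 : L = 0 → ∀ q : ℚ, T (fun _ => (q : ℂ)) ∈ H.At L')
    (h1 : ∀ (P : Prd m) (h : P.size = L) (z : W.coh (P.obj H.X)), z ∈ tot W (P.obj H.X) →
      T (fun w => H.tc P z (w ∘ Fin.cast h)) ∈ H.At L') {u : Ten H.I L} (hu : u ∈ H.At L) :
    T u ∈ H.At L' := by
  have : H.At L ≤ (H.At L').comap T := by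
    refine (AddSubgroup.closure_le _).2 ?_
    rintro x (⟨h, q, rfl⟩ | ⟨P, h, z, hz, rfl⟩)
    · exact h0 h q
    · exact h1 P h z hz
  exact this hu

theorem at_tc (P : Prd m) {z : W.coh (P.obj H.X)} (hz : z ∈ tot W (P.obj H.X)) :
    H.tc P z ∈ H.At P.size :=
  AddSubgroup.subset_closure (Or.inr ⟨P, rfl, z, hz, rfl⟩)

theorem at_tc' (P : Prd m) {L : ℕ} (h : P.size = L) {z : W.coh (P.obj H.X)}
    (hz : z ∈ tot W (P.obj H.X)) : (fun w => H.tc P z (w ∘ Fin.cast h)) ∈ H.At L :=
  AddSubgroup.subset_closure (Or.inr ⟨P, h, z, hz, rfl⟩)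

/-- rational multiples -/
theorem at_rat (L : ℕ) (q : ℚ) {u : Ten H.I L} (hu : u ∈ H.At L) : (q : ℂ) • u ∈ H.At L := by
  refine at_map H (T := ((LinearMap.lsmul ℂ (Ten H.I L) (q : ℂ)).toAddMonoidHom)) ?_ ?_ hu
  · intro h q'
    refine AddSubgroup.subset_closure (Or.inl ⟨h, q * q', ?_⟩)
    funext w
    change (q : ℂ) * (q' : ℂ) = _
    push_cast
    rfl
  · intro P h z hz
    have h2 := at_tc' H P h (tot_smul H.hW (H.memP P) q hz)
    convert h2 using 1
    funext w
    rw [map_smul]
    rfl

/-! ### Slot operators -/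

/-- the operator that multiplies the basis vector of the word `w` by `c (w i)` -/
theorem slotOp (c : H.I → ℂ) (hc : ∀ a, ∃ u : W.coh (H.X a) →ₗ[ℂ] W.coh (H.X a),
    AlgOp W (H.X a) u ∧ ∀ x, u (H.e a x) = c x • H.e a x) :
    ∀ (P : Prd m) (i : Fin P.size), ∃ u : W.coh (P.obj H.X) →ₗ[ℂ] W.coh (P.obj H.X),
      AlgOp W (P.obj H.X) u ∧ ∀ w, u (H.E P w) = c (w i) • H.E P w
  | .leaf a, i => by
    obtain ⟨u, hu, h⟩ := hc a
    refine ⟨u, hu, fun w => ?_⟩
    have hi : i = ⟨0, Nat.one_pos⟩ := by
      apply Fin.ext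
      have := i.2
      change (i : ℕ) < 1 at this
      change (i : ℕ) = 0
      omega
    subst hi
    exact h _
  | .prod P Q, i => by
    revert i
    refine Fin.addCases (m := P.size) (n := Q.size) (fun i => ?_) (fun i => ?_)
    · obtain ⟨u, hu, h⟩ := slotOp c hc P i
      refine ⟨ten H.hW (H.memP P) (H.memP Q) u LinearMap.id,
        TAL.ten_alg H.hW (H.memP P) (H.memP Q) hu (AlgOp.id H.hW (H.memP Q)), fun w => ?_⟩
      change ten H.hW (H.memP P) (H.memP Q) u LinearMap.id
        (W.pull (fst (P.obj H.X) (Q.obj H.X)) (H.E P (fun j => w (Fin.castAdd Q.size j)))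
        * W.pull (snd (P.obj H.X) (Q.obj H.X)) (H.E Q (fun j => w (Fin.natAdd P.size j)))) =
        c (w (Fin.castAdd Q.size i)) •
        (W.pull (fst (P.obj H.X) (Q.obj H.X)) (H.E P (fun j => w (Fin.castAdd Q.size j)))
        * W.pull (snd (P.obj H.X) (Q.obj H.X)) (H.E Q (fun j => w (Fin.natAdd P.size j))))
      rw [ten_gen, h, map_smul, smul_mul_assoc, LinearMap.id_apply]
    · obtain ⟨u, hu, h⟩ := slotOp c hc Q i
      refine ⟨ten H.hW (H.memP P) (H.memP Q) LinearMap.id u,
        TAL.ten_alg H.hW (H.memP P) (H.memP Q) (AlgOp.id H.hW (H.memP P)) hu, fun w => ?_⟩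
      change ten H.hW (H.memP P) (H.memP Q) LinearMap.id u
        (W.pull (fst (P.obj H.X) (Q.obj H.X)) (H.E P (fun j => w (Fin.castAdd Q.size j)))
        * W.pull (snd (P.obj H.X) (Q.obj H.X)) (H.E Q (fun j => w (Fin.natAdd P.size j)))) =
        c (w (Fin.natAdd P.size i)) •
        (W.pull (fst (P.obj H.X) (Q.obj H.X)) (H.E P (fun j => w (Fin.castAdd Q.size j)))
        * W.pull (snd (P.obj H.X) (Q.obj H.X)) (H.E Q (fun j => w (Fin.natAdd P.size j))))
      rw [ten_gen, h, map_smul, mul_smul_comm, LinearMap.id_apply]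

section ge

variable (ge : H.GeFacts)
include ge

/-- the coordinates of a combination of the basis vectors -/
theorem tc_of {P : Prd m} {z : W.coh (P.obj H.X)} {u : Ten H.I P.size}
    (hu : ∀ w, H.Off P w → u w = 0) (hz : z = ∑ w, u w • H.E P w) : H.tc P z = u := by
  rw [hz]; exact ge.tc_sum P u hu

/-- multiplication by a function of the `i`-th letter -/
theorem slot (c : H.I → ℂ) (hc : ∀ a, ∃ u : W.coh (H.X a) →ₗ[ℂ] W.coh (H.X a),
    AlgOp W (H.X a) u ∧ ∀ x, u (H.e a x) = c x • H.e a x) {L : ℕ} (i : Fin L) {u : Ten H.I L}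
    (hu : u ∈ H.At L) : (fun w => c (w i) * u w) ∈ H.At L := by
  have key : ∀ (P : Prd m) (L : ℕ) (h : P.size = L) (i : Fin L) (z : W.coh (P.obj H.X)),
      z ∈ tot W (P.obj H.X) → (fun w => c (w i) * H.tc P z (w ∘ Fin.cast h)) ∈ H.At L := by
    intro P L h
    subst h
    intro i z hz
    obtain ⟨θ, hθ, hE⟩ := slotOp H c hc P i
    have h1 : H.tc P (θ z) = fun w => c (w i) * H.tc P z w := by
      refine tc_of H ge (fun w hw => ?_) ?_
      · rw [ge.tc_off P z w hw, mul_zero]
      · conv_lhs => rw [ge.expand P z]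
        rw [map_sum]
        refine Finset.sum_congr rfl fun w _ => ?_
        rw [map_smul, hE, smul_smul, mul_comm]
    have h2 := at_tc H P (AlgOp.apply H.hW (H.memP P) hθ hz)
    rw [h1] at h2
    exact h2
  refine at_map H (T := { toFun := fun u w => c (w i) * u w
                          map_zero' := by funext w; exact mul_zero _
                          map_add' := fun x y => by funext w; exact mul_add _ _ _ }) ?_ ?_ hu
  · intro h q
    subst h
    exact i.elim0
  · intro P h z hz
    exact key P L h i z hz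

/-- the parity of the `i`-th letter -/
theorem slot_par {L : ℕ} (i : Fin L) {u : Ten H.I L} (hu : u ∈ H.At L) :
    (fun w => (-1 : ℂ) ^ (H.D.typ (w i)).2 * u w) ∈ H.At L := by
  refine slot H ge (fun x => (-1 : ℂ) ^ (H.D.typ x).2) (fun a => ?_) i hu
  obtain ⟨θ, hθ, h⟩ := H.eps a
  refine ⟨θ, hθ, fun x => ?_⟩
  refine Par.ind (H.e_par a x) (P := fun y => θ y = (-1 : ℂ) ^ (H.D.typ x).2 • y) ?_ ?_ ?_
  · intro i hi y hy
    rw [h i y hy, Par.pow_congr hi]
  · rw [map_zero, smul_zero]
  · intro y y' h1 h2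
    rw [map_add, h1, h2, smul_add]

/-- projection to a parity of the `i`-th letter -/
theorem slot_one {L : ℕ} (i : Fin L) (b : Fin 2) {u : Ten H.I L} (hu : u ∈ H.At L) :
    (fun w => (if (H.D.typ (w i)).2 = (b : ℕ) then 1 else 0) * u w) ∈ H.At L := by
  have h1 := slot_par H ge i hu
  have h2 := at_rat H L (1 / 2) (add_mem hu h1)
  have h3 := at_rat H L (1 / 2) (sub_mem hu h1)
  fin_cases b
  · convert h2 using 1
    funext w
    change (if (H.D.typ (w i)).2 = 0 then 1 else 0) * u w = ((1 / 2 : ℚ) : ℂ) * (u w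
      + (-1 : ℂ) ^ (H.D.typ (w i)).2 * u w)
    have h4 := H.lt_two (w i)
    interval_cases (H.D.typ (w i)).2
    · rw [if_pos rfl]; push_cast; ring
    · rw [if_neg (by omega)]; push_cast; ring
  · convert h3 using 1
    funext w
    change (if (H.D.typ (w i)).2 = 1 then 1 else 0) * u w = ((1 / 2 : ℚ) : ℂ) * (u w
      - (-1 : ℂ) ^ (H.D.typ (w i)).2 * u w)
    have h4 := H.lt_two (w i)
    interval_cases (H.D.typ (w i)).2
    · rw [if_neg (by omega)]; push_cast; ring
    · rw [if_pos rfl]; push_cast; ring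

/-- projection to a parity word -/
theorem slot_word {L : ℕ} (p : Fin L → Fin 2) {u : Ten H.I L} (hu : u ∈ H.At L)
    (S : Finset (Fin L)) :
    (fun w => (∏ i ∈ S, (if (H.D.typ (w i)).2 = (p i : ℕ) then (1 : ℂ) else 0)) * u w)
      ∈ H.At L := by
  classical
  induction S using Finset.induction_on with
  | empty =>
    convert hu using 1
    funext w
    simp
  | insert i S hi ih =>
    have h1 := slot_one H ge i (p i) ih
    convert h1 using 1
    funext w
    rw [Finset.prod_insert hi]
    ring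

/-- multiplication by a rational function of the parities -/
theorem slots (L : ℕ) (f : (Fin L → ℕ) → ℚ) (u : Ten H.I L) (hu : u ∈ H.At L) :
    (fun w => (f (fun i => (H.D.typ (w i)).2) : ℂ) * u w) ∈ H.At L := by
  classical
  have h1 : ∑ p : Fin L → Fin 2, ((f (fun i => (p i : ℕ)) : ℚ) : ℂ) •
      (fun w : Fin L → H.I => (∏ i, (if (H.D.typ (w i)).2 = (p i : ℕ) then (1 : ℂ) else 0)) * u w)
      ∈ H.At L :=
    sum_mem fun p _ => at_rat H L _ (slot_word H ge p hu Finset.univ)
  convert h1 using 1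
  funext w
  rw [Finset.sum_apply]
  rw [Finset.sum_eq_single (fun i => (⟨(H.D.typ (w i)).2, H.lt_two (w i)⟩ : Fin 2))]
  · rw [Pi.smul_apply, smul_eq_mul, Finset.prod_eq_one, one_mul]
    intro i _
    rw [if_pos rfl]
  · intro p _ hp
    rw [Pi.smul_apply, smul_eq_mul]
    obtain ⟨i, hi⟩ := Function.ne_iff.1 hp
    rw [Finset.prod_eq_zero (Finset.mem_univ i), zero_mul, mul_zero]
    rw [if_neg]
    intro h
    apply hi
    exact Fin.ext h.symm
  · intro h
    exact absurd (Finset.mem_univ _) h

end ge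

/-! ### Left nested products -/

/-- left nested products -/
def N : (n : ℕ) → (Fin (n + 1) → Fin m) → Prd m
  | 0, b => .leaf (b 0)
  | n + 1, b => .prod (N n (fun j => b j.castSucc)) (.leaf (b (Fin.last (n + 1))))

theorem size_N : ∀ (n : ℕ) (b : Fin (n + 1) → Fin m), (N n b).size = n + 1
  | 0, _ => rfl
  | n + 1, b => by
    change (N n (fun j => b j.castSucc)).size + 1 = n + 1 + 1
    rw [size_N]

theorem lw_N : ∀ (n : ℕ) (b : Fin (n + 1) → Fin m) (i : Fin (N n b).size),
    (N n b).lw i = b (Fin.cast (size_N n b) i)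
  | 0, b, i => by
    have h1 : (i : ℕ) < 1 := i.2
    change b 0 = _
    congr 1
    apply Fin.ext
    change 0 = (i : ℕ)
    omega
  | n + 1, b, i => by
    revert i
    refine Fin.addCases (m := (N n (fun j => b j.castSucc)).size) (n := 1) (fun i => ?_)
      (fun i => ?_)
    · change Fin.append (N n (fun j => b j.castSucc)).lw (fun _ => b (Fin.last (n + 1)))
        (Fin.castAdd 1 i) = _
      rw [Fin.append_left, lw_N]
      rfl
    · change Fin.append (N n (fun j => b j.castSucc)).lw (fun _ => b (Fin.last (n + 1)))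
        (Fin.natAdd _ i) = _
      rw [Fin.append_right]
      congr 1
      apply Fin.ext
      have h0 : (i : ℕ) = 0 := by omega
      change n + 1 = (N n (fun j => b j.castSucc)).size + (i : ℕ)
      rw [size_N, h0]

/-- the basis vectors of the left nested products -/
def E' : (n : ℕ) → (b : Fin (n + 1) → Fin m) → (Fin (n + 1) → H.I) → W.coh ((N n b).obj H.X)
  | 0, b, w => H.e (b 0) (w 0)
  | n + 1, b, w => W.pull (fst ((N n (fun j => b j.castSucc)).obj H.X) (H.X (b (Fin.last (n + 1)))))
        (E' n (fun j => b j.castSucc) (fun j => w j.castSucc))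
      * W.pull (snd ((N n (fun j => b j.castSucc)).obj H.X) (H.X (b (Fin.last (n + 1)))))
        (H.e (b (Fin.last (n + 1))) (w (Fin.last (n + 1))))

theorem E_eq : ∀ (n : ℕ) (b : Fin (n + 1) → Fin m) (w : Fin (N n b).size → H.I),
    H.E (N n b) w = E' H n b (w ∘ Fin.cast (size_N n b).symm)
  | 0, b, w => rfl
  | n + 1, b, w => by
    have ih := E_eq n (fun j => b j.castSucc) (fun i => w (Fin.castAdd 1 i))
    change W.pull (fst ((N n (fun j => b j.castSucc)).obj H.X) (H.X (b (Fin.last (n + 1)))))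
        (H.E (N n (fun j => b j.castSucc)) (fun i => w (Fin.castAdd 1 i)))
      * W.pull (snd ((N n (fun j => b j.castSucc)).obj H.X) (H.X (b (Fin.last (n + 1)))))
        (H.e (b (Fin.last (n + 1))) (w (Fin.natAdd _ ⟨0, Nat.one_pos⟩))) = _
    rw [ih]
    change _ = W.pull (fst ((N n (fun j => b j.castSucc)).obj H.X) (H.X (b (Fin.last (n + 1)))))
        (E' H n (fun j => b j.castSucc) (fun j => (w ∘ Fin.cast (size_N (n + 1) b).symm) j.castSucc))
      * W.pull (snd ((N n (fun j => b j.castSucc)).obj H.X) (H.X (b (Fin.last (n + 1)))))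
        (H.e (b (Fin.last (n + 1))) ((w ∘ Fin.cast (size_N (n + 1) b).symm) (Fin.last (n + 1))))
    have e1 : (Fin.natAdd (N n (fun j => b j.castSucc)).size (⟨0, Nat.one_pos⟩ : Fin 1))
        = Fin.cast (size_N (n + 1) b).symm (Fin.last (n + 1)) := by
      apply Fin.ext
      change (N n (fun j => b j.castSucc)).size + 0 = n + 1
      rw [size_N]
    rw [Function.comp_apply, ← e1]
    rfl

/-- an isomorphism between factors with the same label -/
theorem leafMor {a a' : Fin m} (h : a' = a) : ∃ f : H.X a' ⟶ H.X a, ∀ x, W.pull f (H.e a x)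
    = H.e a' x := by
  subst h
  exact ⟨𝟙 _, fun x => by rw [W.pull_id]⟩

/-- the sign -/
def ep (x y : H.I) : ℂ := (-1) ^ ((H.D.typ x).2 * (H.D.typ y).2)

theorem ep_comm (x y : H.I) : ep H x y = ep H y x := by rw [ep, ep, mul_comm]

theorem ep_sq (x y : H.I) : ep H x y * ep H x y = 1 := by
  rw [ep, ← mul_pow]; norm_num

/-! ### Three lemmas on morphisms between products -/

section mor

variable (hW : IsWeilCohomology W 𝒱)
include hW

theorem two {A B A' B' : Sch k} {a b : ℕ} (hA : 𝒱.mem A' a) (hB : 𝒱.mem B' b) (fx : B' ⟶ A)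
    (fy : A' ⟶ B) {x : W.coh A} {y : W.coh B} {x' : W.coh B'} {y' : W.coh A'}
    (hx : W.pull fx x = x') (hy : W.pull fy y = y') {p q : ℕ} (hp : x' ∈ par W B' p)
    (hq : y' ∈ par W A' q) :
    W.pull (lift (snd A' B' ≫ fx) (fst A' B' ≫ fy)) (W.pull (fst A B) x * W.pull (snd A B) y)
      = (-1 : ℂ) ^ (p * q) • (W.pull (fst A' B') y' * W.pull (snd A' B') x') := by
  have hAB := 𝒱.prod hA hB
  rw [map_mul, ← W.pull_comp, ← W.pull_comp, lift_fst, lift_snd, W.pull_comp, W.pull_comp, hx, hy]
  exact Par.comm hW hAB (Par.pull hW hAB hB _ hp) (Par.pull hW hAB hA _ hq)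

theorem three {Z Z' A B A' B' : Sch k} {c a b : ℕ} (hZ : 𝒱.mem Z' c) (hA : 𝒱.mem A' a)
    (hB : 𝒱.mem B' b) (g : Z' ⟶ Z) (fx : B' ⟶ A) (fy : A' ⟶ B) {z : W.coh Z} {z' : W.coh Z'}
    {x : W.coh A} {y : W.coh B} {x' : W.coh B'} {y' : W.coh A'} (hz : W.pull g z = z')
    (hx : W.pull fx x = x') (hy : W.pull fy y = y') {p q : ℕ} (hp : x' ∈ par W B' p)
    (hq : y' ∈ par W A' q) :
    W.pull (lift (lift (fst (Z' ⊗ A') B' ≫ fst Z' A' ≫ g) (snd (Z' ⊗ A') B' ≫ fx))
        (fst (Z' ⊗ A') B' ≫ snd Z' A' ≫ fy))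
      (W.pull (fst (Z ⊗ A) B) (W.pull (fst Z A) z * W.pull (snd Z A) x) * W.pull (snd (Z ⊗ A) B) y)
      = (-1 : ℂ) ^ (p * q) • (W.pull (fst (Z' ⊗ A') B') (W.pull (fst Z' A') z'
        * W.pull (snd Z' A') y') * W.pull (snd (Z' ⊗ A') B') x') := by
  have h2 := 𝒱.prod hZ hA
  have h3 := 𝒱.prod h2 hB
  rw [map_mul, ← W.pull_comp, ← W.pull_comp, lift_fst, lift_snd, map_mul, ← W.pull_comp,
    ← W.pull_comp, lift_fst, lift_snd, W.pull_comp, W.pull_comp, W.pull_comp, W.pull_comp,
    W.pull_comp, hz, hx, hy, map_mul, mul_assoc, mul_assoc, ← mul_smul_comm]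
  congr 1
  exact Par.comm hW h3 (Par.pull hW h3 hB _ hp) (Par.pull hW h3 h2 _ (Par.pull hW h2 hA _ hq))

omit hW in
theorem low {Z Z' B B' : Sch k} (f : Z' ⟶ Z) (g : B' ⟶ B) {z : W.coh Z} {y : W.coh B}
    {z' : W.coh Z'} {y' : W.coh B'} {s : ℂ} (hz : W.pull f z = s • z') (hy : W.pull g y = y') :
    W.pull (lift (fst Z' B' ≫ f) (snd Z' B' ≫ g)) (W.pull (fst Z B) z * W.pull (snd Z B) y)
      = s • (W.pull (fst Z' B') z' * W.pull (snd Z' B') y') := by
  rw [map_mul, ← W.pull_comp, ← W.pull_comp, lift_fst, lift_snd, W.pull_comp, W.pull_comp, hz, hy,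
    map_smul, smul_mul_assoc]

end mor

/-- equal words of labels -/
theorem NMor {n : ℕ} {b b' : Fin (n + 1) → Fin m} (h : b' = b) :
    ∃ f : (N n b').obj H.X ⟶ (N n b).obj H.X, ∀ w, W.pull f (E' H n b w) = E' H n b' w := by
  subst h
  exact ⟨𝟙 _, fun x => by rw [W.pull_id]⟩

/-- the swap of two adjacent slots, geometrically -/
theorem swapN : ∀ (n : ℕ) (b b' : Fin (n + 1) → Fin m) (i : Fin n),
    (∀ j, b' j = b (Equiv.swap i.castSucc i.succ j)) →
    ∃ f : (N n b').obj H.X ⟶ (N n b).obj H.X, ∀ w : Fin (n + 1) → H.I,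
      W.pull f (E' H n b w) = ep H (w i.castSucc) (w i.succ) •
        E' H n b' (fun j => w (Equiv.swap i.castSucc i.succ j)) := by
  intro n
  induction n with
  | zero => intro b b' i; exact i.elim0
  | succ n ih =>
    intro b b' i
    refine Fin.lastCases (fun hb => ?_) (fun i hb => ?_) i
    · -- the last two slots
      have hsL : Equiv.swap (Fin.last n).castSucc (Fin.last n).succ (Fin.last (n + 1))
          = (Fin.last n).castSucc := by
        rw [← Fin.succ_last]; exact Equiv.swap_apply_right _ _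
      have hsP : Equiv.swap (Fin.last n).castSucc (Fin.last n).succ (Fin.last n).castSucc
          = Fin.last (n + 1) := by
        rw [← Fin.succ_last]; exact Equiv.swap_apply_left _ _
      have hx : b' (Fin.last (n + 1)) = b (Fin.last n).castSucc := by rw [hb, hsL]
      have hy : b' (Fin.last n).castSucc = b (Fin.last (n + 1)) := by rw [hb, hsP]
      obtain ⟨fx, hfx⟩ := leafMor H hx
      obtain ⟨fy, hfy⟩ := leafMor H hy
      clear ih
      cases n with
      | zero =>
        refine ⟨lift (snd (H.X (b' (Fin.last 0).castSucc)) (H.X (b' (Fin.last 1))) ≫ fx)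
          (fst (H.X (b' (Fin.last 0).castSucc)) (H.X (b' (Fin.last 1))) ≫ fy), fun w => ?_⟩
        change W.pull _ (W.pull (fst (H.X (b (Fin.last 0).castSucc)) (H.X (b (Fin.last 1))))
            (H.e (b (Fin.last 0).castSucc) (w (Fin.last 0).castSucc))
          * W.pull (snd (H.X (b (Fin.last 0).castSucc)) (H.X (b (Fin.last 1))))
            (H.e (b (Fin.last 1)) (w (Fin.last 1)))) = ep H _ _ •
          (W.pull (fst (H.X (b' (Fin.last 0).castSucc)) (H.X (b' (Fin.last 1))))
            (H.e (b' (Fin.last 0).castSucc) (w (Equiv.swap (Fin.last 0).castSucc (Fin.last 0).succ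
              (Fin.last 0).castSucc)))
          * W.pull (snd (H.X (b' (Fin.last 0).castSucc)) (H.X (b' (Fin.last 1))))
            (H.e (b' (Fin.last 1)) (w (Equiv.swap (Fin.last 0).castSucc (Fin.last 0).succ
              (Fin.last 1)))))
        rw [hsL, hsP]
        exact two H.hW (H.mem _) (H.mem _) fx fy (hfx _) (hfy _) (H.e_par _ _) (H.e_par _ _)
      | succ n =>
        have hbb : (fun j : Fin (n + 1) => b' j.castSucc.castSucc)
            = fun j => b j.castSucc.castSucc := by
          funext j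
          rw [hb, Equiv.swap_apply_of_ne_of_ne]
          · intro h
            have := congrArg Fin.val h
            simp at this
            omega
          · intro h
            have := congrArg Fin.val h
            simp at this
            omega
        have hww : ∀ w : Fin (n + 1 + 1 + 1) → H.I, (fun j : Fin (n + 1) =>
            w (Equiv.swap (Fin.last (n + 1)).castSucc (Fin.last (n + 1)).succ
              j.castSucc.castSucc)) = fun j => w j.castSucc.castSucc := by
          intro w
          funext j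
          rw [Equiv.swap_apply_of_ne_of_ne]
          · intro h
            have := congrArg Fin.val h
            simp at this
            omega
          · intro h
            have := congrArg Fin.val h
            simp at this
            omega
        obtain ⟨g, hg⟩ := NMor H hbb
        refine ⟨lift (lift (fst ((N n (fun j : Fin (n + 1) => b' j.castSucc.castSucc)).obj H.X ⊗
            H.X (b' (Fin.last (n + 1)).castSucc)) (H.X (b' (Fin.last (n + 1 + 1)))) ≫
            fst ((N n (fun j : Fin (n + 1) => b' j.castSucc.castSucc)).obj H.X)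
              (H.X (b' (Fin.last (n + 1)).castSucc)) ≫ g)
            (snd ((N n (fun j : Fin (n + 1) => b' j.castSucc.castSucc)).obj H.X ⊗
            H.X (b' (Fin.last (n + 1)).castSucc)) (H.X (b' (Fin.last (n + 1 + 1)))) ≫ fx))
          (fst ((N n (fun j : Fin (n + 1) => b' j.castSucc.castSucc)).obj H.X ⊗
            H.X (b' (Fin.last (n + 1)).castSucc)) (H.X (b' (Fin.last (n + 1 + 1)))) ≫
            snd ((N n (fun j : Fin (n + 1) => b' j.castSucc.castSucc)).obj H.X)
              (H.X (b' (Fin.last (n + 1)).castSucc)) ≫ fy), fun w => ?_⟩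
        have h := three H.hW (H.memP (N n (fun j : Fin (n + 1) => b' j.castSucc.castSucc)))
          (H.mem (b' (Fin.last (n + 1)).castSucc)) (H.mem (b' (Fin.last (n + 1 + 1)))) g fx fy
          (hg (fun j => w j.castSucc.castSucc)) (hfx (w (Fin.last (n + 1)).castSucc))
          (hfy (w (Fin.last (n + 1 + 1)))) (H.e_par _ _) (H.e_par _ _)
        have e1 : E' H (n + 1 + 1) b' (fun j => w (Equiv.swap (Fin.last (n + 1)).castSucc
              (Fin.last (n + 1)).succ j))
            = W.pull (fst ((N n (fun j : Fin (n + 1) => b' j.castSucc.castSucc)).obj H.X ⊗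
            H.X (b' (Fin.last (n + 1)).castSucc)) (H.X (b' (Fin.last (n + 1 + 1)))))
              (W.pull (fst ((N n (fun j : Fin (n + 1) => b' j.castSucc.castSucc)).obj H.X)
              (H.X (b' (Fin.last (n + 1)).castSucc)))
              (E' H n (fun j => b' j.castSucc.castSucc) (fun j : Fin (n + 1) =>
            w (Equiv.swap (Fin.last (n + 1)).castSucc (Fin.last (n + 1)).succ
              j.castSucc.castSucc)))
            * W.pull (snd ((N n (fun j : Fin (n + 1) => b' j.castSucc.castSucc)).obj H.X)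
              (H.X (b' (Fin.last (n + 1)).castSucc))) (H.e (b' (Fin.last (n + 1)).castSucc)
              (w (Equiv.swap (Fin.last (n + 1)).castSucc (Fin.last (n + 1)).succ
                (Fin.last (n + 1)).castSucc))))
          * W.pull (snd ((N n (fun j : Fin (n + 1) => b' j.castSucc.castSucc)).obj H.X ⊗
            H.X (b' (Fin.last (n + 1)).castSucc)) (H.X (b' (Fin.last (n + 1 + 1)))))
            (H.e (b' (Fin.last (n + 1 + 1)))
            (w (Equiv.swap (Fin.last (n + 1)).castSucc (Fin.last (n + 1)).succ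
              (Fin.last (n + 1 + 1))))) := rfl
        rw [e1, hsL, hsP, hww]
        exact h
    · -- the lower slots
      have hs : ∀ j : Fin (n + 1), Equiv.swap i.castSucc.castSucc i.castSucc.succ j.castSucc
          = (Equiv.swap i.castSucc i.succ j).castSucc := by
        intro j
        rw [Fin.succ_castSucc]
        exact (Fin.castSucc_injective (n + 1)).swap_apply _ _ _
      have hsl : Equiv.swap i.castSucc.castSucc i.castSucc.succ (Fin.last (n + 1))
          = Fin.last (n + 1) := by
        rw [Fin.succ_castSucc]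
        exact Equiv.swap_apply_of_ne_of_ne (Fin.castSucc_lt_last _).ne'
          (Fin.castSucc_lt_last _).ne'
      obtain ⟨f, hf⟩ := ih (fun j => b j.castSucc) (fun j => b' j.castSucc) i
        (fun j => by rw [hb, hs])
      obtain ⟨g, hg⟩ := leafMor H (a := b (Fin.last (n + 1))) (a' := b' (Fin.last (n + 1)))
        (by rw [hb, hsl])
      refine ⟨lift (fst ((N n (fun j : Fin (n + 1) => b' j.castSucc)).obj H.X)
          (H.X (b' (Fin.last (n + 1)))) ≫ f) (snd ((N n (fun j : Fin (n + 1) =>
          b' j.castSucc)).obj H.X) (H.X (b' (Fin.last (n + 1)))) ≫ g), fun w => ?_⟩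
      have h := low f g (hf (fun j => w j.castSucc)) (hg (w (Fin.last (n + 1))))
      have e1 : E' H (n + 1) b' (fun j => w (Equiv.swap i.castSucc.castSucc i.castSucc.succ j))
          = W.pull (fst ((N n (fun j : Fin (n + 1) => b' j.castSucc)).obj H.X)
          (H.X (b' (Fin.last (n + 1))))) (E' H n (fun j => b' j.castSucc)
            (fun j => w (Equiv.swap i.castSucc.castSucc i.castSucc.succ j.castSucc)))
          * W.pull (snd ((N n (fun j : Fin (n + 1) => b' j.castSucc)).obj H.X)
          (H.X (b' (Fin.last (n + 1))))) (H.e (b' (Fin.last (n + 1)))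
            (w (Equiv.swap i.castSucc.castSucc i.castSucc.succ (Fin.last (n + 1))))) := rfl
      rw [e1, hsl]
      simp only [hs]
      rw [Fin.succ_castSucc]
      exact h

/-! ### Coordinates for the left nested products -/

/-- the coordinates of a class on a left nested product -/
def tcN (n : ℕ) (b : Fin (n + 1) → Fin m) (z : W.coh ((N n b).obj H.X)) : Ten H.I (n + 1) :=
  fun w => H.tc (N n b) z (w ∘ Fin.cast (size_N n b))

/-- reindexing of words -/
def castE {L L' : ℕ} (h : L = L') : (Fin L → H.I) ≃ (Fin L' → H.I) :=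
  Equiv.arrowCongr (finCongr h) (Equiv.refl _)

theorem castE_apply {L L' : ℕ} (h : L = L') (w : Fin L → H.I) :
    castE H h w = w ∘ Fin.cast h.symm := rfl

section ge

variable (ge : H.GeFacts)
include ge

theorem expandN (n : ℕ) (b : Fin (n + 1) → Fin m) (z : W.coh ((N n b).obj H.X)) :
    z = ∑ w, tcN H n b z w • E' H n b w := by
  conv_lhs => rw [ge.expand (N n b) z]
  refine Fintype.sum_equiv (castE H (size_N n b)) _ _ fun w => ?_
  rw [castE_apply, tcN, E_eq]
  rfl

theorem tcN_off (n : ℕ) (b : Fin (n + 1) → Fin m) (z : W.coh ((N n b).obj H.X))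
    (w : Fin (n + 1) → H.I) (i : Fin (n + 1)) (h : (H.D.typ (w i)).1 ≠ b i) :
    tcN H n b z w = 0 := by
  refine ge.tc_off (N n b) z _ ⟨Fin.cast (size_N n b).symm i, ?_⟩
  rw [lw_N]
  exact h

theorem tcN_sum (n : ℕ) (b : Fin (n + 1) → Fin m) (u : Ten H.I (n + 1))
    (hu : ∀ w i, (H.D.typ (w i)).1 ≠ b i → u w = 0) {z : W.coh ((N n b).obj H.X)}
    (hz : z = ∑ w, u w • E' H n b w) : tcN H n b z = u := by
  have h1 : H.tc (N n b) z = fun w => u (w ∘ Fin.cast (size_N n b).symm) := by
    refine tc_of H ge (fun w hw => ?_) ?_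
    · obtain ⟨i, hi⟩ := hw
      rw [lw_N] at hi
      refine hu _ (Fin.cast (size_N n b) i) ?_
      exact hi
    · rw [hz]
      refine (Fintype.sum_equiv (castE H (size_N n b)) _ _ fun w => ?_).symm
      rw [castE_apply, E_eq]
  funext w
  rw [tcN, h1]
  rfl

/-- every product may be replaced by a left nested one -/
theorem toN (gr : H.RelFacts) (P : Prd m) (n : ℕ) (h : P.size = n + 1) (z : W.coh (P.obj H.X))
    (hz : z ∈ tot W (P.obj H.X)) : ∃ (b : Fin (n + 1) → Fin m) (z' : W.coh ((N n b).obj H.X)),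
      z' ∈ tot W ((N n b).obj H.X) ∧ tcN H n b z' = fun w => H.tc P z (w ∘ Fin.cast h) := by
  refine ⟨fun i => P.lw (Fin.cast h.symm i), ?_⟩
  have hrel : H.Rel (N n fun i => P.lw (Fin.cast h.symm i)) P := by
    refine gr.coh _ _ ((size_N n _).trans h.symm) fun i => ?_
    rw [lw_N]
    rfl
  obtain ⟨h', h2⟩ := gr.tc _ _ hrel
  obtain ⟨z', hz', h3⟩ := h2 z hz
  refine ⟨z', hz', ?_⟩
  funext w
  rw [tcN, h3]
  rfl

/-- the swap of adjacent slots, with the sign -/
theorem swap_sign (gr : H.RelFacts) (n : ℕ) (i : Fin n) {u : Ten H.I (n + 1)}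
    (hu : u ∈ H.At (n + 1)) :
    (fun w => ep H (w i.castSucc) (w i.succ) * u (w ∘ Equiv.swap i.castSucc i.succ))
      ∈ H.At (n + 1) := by
  refine at_map H (T := { toFun := fun u w => ep H (w i.castSucc) (w i.succ) *
                            u (w ∘ Equiv.swap i.castSucc i.succ)
                          map_zero' := by funext w; exact mul_zero _
                          map_add' := fun x y => by funext w; exact mul_add _ _ _ }) ?_ ?_ hu
  · intro h; omega
  · intro P h z hz
    obtain ⟨b, z', hz', e⟩ := toN H ge gr P n h z hz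
    rw [← e]
    change (fun w => ep H (w i.castSucc) (w i.succ) *
      tcN H n b z' (w ∘ Equiv.swap i.castSucc i.succ)) ∈ H.At (n + 1)
    set σ := Equiv.swap i.castSucc i.succ with hσ
    have hσσ : ∀ j, σ (σ j) = j := fun j => by
      rw [hσ, ← Equiv.Perm.mul_apply, Equiv.swap_mul_self, Equiv.Perm.one_apply]
    obtain ⟨f, hf⟩ := swapN H n b (fun j => b (σ j)) i (fun j => rfl)
    have h1 : W.pull f z' ∈ tot W ((N n fun j => b (σ j)).obj H.X) :=
      tot_pull H.hW (H.memP _) (H.memP _) f hz'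
    have h2 : W.pull f z' = ∑ w, (ep H (w i.castSucc) (w i.succ) * tcN H n b z' (w ∘ σ)) •
        E' H n (fun j => b (σ j)) w := by
      conv_lhs => rw [expandN H ge n b z']
      rw [map_sum]
      refine Fintype.sum_equiv (Equiv.arrowCongr σ (Equiv.refl H.I)) _ _ fun w => ?_
      have e1 : (Equiv.arrowCongr σ (Equiv.refl H.I)) w = w ∘ σ := by
        funext j
        change w (σ.symm j) = w (σ j)
        rw [hσ, Equiv.symm_swap]
      have e2 : (w ∘ σ) ∘ σ = w := by
        funext j
        exact congrArg w (hσσ j)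
      have e3 : σ i.castSucc = i.succ := Equiv.swap_apply_left _ _
      have e4 : σ i.succ = i.castSucc := Equiv.swap_apply_right _ _
      rw [e1, e2, map_smul, hf, smul_smul, Function.comp_apply, Function.comp_apply, e3, e4,
        ep_comm H (w i.succ), mul_comm]
      rfl
    have h3 := tcN_sum H ge n (fun j => b (σ j)) _ (fun w j hj => by
      rw [tcN_off H ge n b z' (w ∘ σ) (σ j) (by rw [Function.comp_apply, hσσ]; exact hj),
        mul_zero]) h2
    rw [← h3]
    exact at_tc' H _ (size_N n _) h1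

/-- the swap of adjacent slots -/
theorem swap_at (gr : H.RelFacts) (n : ℕ) (i : Fin n) {u : Ten H.I (n + 1)}
    (hu : u ∈ H.At (n + 1)) : permT (Equiv.swap i.castSucc i.succ) u ∈ H.At (n + 1) := by
  have h1 := swap_sign H ge gr n i hu
  have h2 := slots H ge (n + 1) (fun p => (-1 : ℚ) ^ (p i.castSucc * p i.succ)) _ h1
  convert h2 using 1
  funext w
  change u (w ∘ Equiv.swap i.castSucc i.succ) = (((-1 : ℚ) ^ ((H.D.typ (w i.castSucc)).2 *
    (H.D.typ (w i.succ)).2) : ℚ) : ℂ) * (ep H (w i.castSucc) (w i.succ) *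
    u (w ∘ Equiv.swap i.castSucc i.succ))
  have h3 : (((-1 : ℚ) ^ ((H.D.typ (w i.castSucc)).2 * (H.D.typ (w i.succ)).2) : ℚ) : ℂ)
      = ep H (w i.castSucc) (w i.succ) := by
    rw [ep]; push_cast; rfl
  rw [h3, ← mul_assoc, ep_sq, one_mul]

end ge

end

end PGP

/-- Row PSL. -/
theorem psl (ge : PGeStatement.{u, w}) : PSlStatement.{u, w} := by
  intro k _ W 𝒱 m H L f u hu
  exact PGP.slots H (ge H) L f u hu

/-- Row PGP. -/
theorem pgp (ge : PGeStatement.{u, w}) (gr : PGrStatement.{u, w}) : PGpStatement.{u, w} := by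
  intro k _ W 𝒱 m H L
  cases L with
  | zero =>
    intro σ u hu
    have : permT σ u = u := by
      funext w
      change u (w ∘ σ) = u w
      congr 1
      exact Subsingleton.elim _ _
    rw [this]
    exact hu
  | succ n =>
    let S : Submonoid (Equiv.Perm (Fin (n + 1))) :=
      { carrier := {σ | ∀ u ∈ H.At (n + 1), permT σ u ∈ H.At (n + 1)}
        one_mem' := fun u hu => hu
        mul_mem' := fun {σ τ} hσ hτ u hu => by
          have : permT (σ * τ) u = permT σ (permT τ u) := rfl
          rw [this]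
          exact hσ _ (hτ u hu) }
    have hS : S = ⊤ := by
      rw [← top_le_iff, ← Equiv.Perm.mclosure_swap_castSucc_succ n, Submonoid.closure_le]
      rintro _ ⟨i, rfl⟩
      exact fun u hu => PGP.swap_at H (ge H) (gr H) n i hu
    intro σ
    have : σ ∈ S := by rw [hS]; exact Submonoid.mem_top σ
    exact this

end Pool.Agent.Lib.MP_361a6f_ag.FL
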