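import Pool.Agent.Lib.MP_361a6f_ag.FL.P.Ge
import Pool.Agent.Lib.MP_361a6f_ag.FL.P.Gr
import Pool.Agent.Lib.MP_361a6f_ag.FL.P.PGp
import Pool.Agent.Lib.MP_361a6f_ag.FL.P.PGc
import Pool.Agent.Lib.MP_361a6f_ag.FL.P.PGb

/-!
# The pairing host, row PAS: the system of the coordinates of the algebraic classes
-/

open CategoryTheory AlgebraicGeometry MonoidalCategory CartesianMonoidalCategory

universe u v w

namespace Pool.Agent.Lib.MP_361a6f_ag.FL

open Pool.Agent.Lib.MP_361a6f_ag.H3 Pool.Agent.Lib.MP_361a6f_ag.SQ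
  Pool.Agent.Lib.MP_361a6f_ag.PP

variable {k : Type u} [Field k] {m : ℕ}

namespace PGo

theorem size_pos (P : Prd m) : 0 < P.size := by
  induction P with
  | leaf a => exact Nat.one_pos
  | prod P Q hP hQ => exact Nat.add_pos_left hP _

variable {W : CohomologyData.{u, 0, w} k ℂ} {𝒱 : VarietyClass k} (H : PHost W 𝒱 m)

theorem zero (u : Ten H.I 0) : u ∈ H.At 0 ↔ ∃ q : ℚ, u = fun _ => (q : ℂ) := by
  constructor
  · intro hu
    refine AddSubgroup.closure_induction (p := fun u _ => ∃ q : ℚ, u = fun _ => (q : ℂ))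
      ?_ ?_ ?_ ?_ hu
    · rintro x (⟨-, q, hq⟩ | ⟨P, h, -⟩)
      · exact ⟨q, hq⟩
      · exact absurd h (size_pos P).ne'
    · exact ⟨0, by funext; simp⟩
    · rintro x y - - ⟨q, rfl⟩ ⟨r, rfl⟩
      exact ⟨q + r, by funext; simp⟩
    · rintro x - ⟨q, rfl⟩
      exact ⟨-q, by funext; simp⟩
  · rintro ⟨q, rfl⟩
    exact AddSubgroup.subset_closure (Or.inl ⟨rfl, q, rfl⟩)

theorem rat (L : ℕ) (q : ℚ) (u : Ten H.I L) (hu : u ∈ H.At L) : (q : ℂ) • u ∈ H.At L := by
  refine AddSubgroup.closure_induction (p := fun u _ => (q : ℂ) • u ∈ H.At L)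
    ?_ ?_ ?_ ?_ hu
  · rintro x (⟨hL, r, rfl⟩ | ⟨P, h, z, hz, rfl⟩)
    · refine AddSubgroup.subset_closure (Or.inl ⟨hL, q * r, ?_⟩)
      funext w
      simp
    · refine AddSubgroup.subset_closure (Or.inr ⟨P, h, (q : ℂ) • z,
        tot_smul H.hW (H.memP P) q hz, ?_⟩)
      funext w
      rw [map_smul]
      rfl
  · rw [smul_zero]; exact zero_mem _
  · intro x y _ _ hx hy
    rw [smul_add]; exact add_mem hx hy
  · intro x _ hx
    rw [smul_neg]; exact neg_mem hx

theorem At_cast {L L' : ℕ} (h : L' = L) (u : Ten H.I L) (hu : u ∈ H.At L) :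
    (fun w : Fin L' → H.I => u (w ∘ Fin.cast h.symm)) ∈ H.At L' := by
  subst h
  exact hu

theorem outer_add {I : Type} {p q : ℕ} (u : Ten I p) (v v' : Ten I q) :
    outer u (v + v') = outer u v + outer u v' := by
  funext w; simp [outer, mul_add]

theorem add_outer {I : Type} {p q : ℕ} (u u' : Ten I p) (v : Ten I q) :
    outer (u + u') v = outer u v + outer u' v := by
  funext w; simp [outer, add_mul]

theorem outer_neg {I : Type} {p q : ℕ} (u : Ten I p) (v : Ten I q) :
    outer u (-v) = -outer u v := by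
  funext w; simp [outer]

theorem neg_outer {I : Type} {p q : ℕ} (u : Ten I p) (v : Ten I q) :
    outer (-u) v = -outer u v := by
  funext w; simp [outer]

theorem outer_zero {I : Type} {p q : ℕ} (u : Ten I p) : outer u (0 : Ten I q) = 0 := by
  funext w; simp [outer]

theorem zero_outer {I : Type} {p q : ℕ} (v : Ten I q) : outer (0 : Ten I p) v = 0 := by
  funext w; simp [outer]

theorem outer (ge : H.GeFacts) (p q : ℕ) (u : Ten H.I p) (hu : u ∈ H.At p) (v : Ten H.I q)
    (hv : v ∈ H.At q) : FL.outer u v ∈ H.At (p + q) := by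
  refine AddSubgroup.closure_induction (p := fun u _ => FL.outer u v ∈ H.At (p + q))
    ?_ ?_ ?_ ?_ hu
  · rintro x (⟨hp, r, rfl⟩ | ⟨P, hP, z, hz, rfl⟩)
    · -- a rational constant
      subst hp
      have h1 := rat H (0 + q) r _ (At_cast H (show 0 + q = q by omega) v hv)
      convert h1 using 1
      funext w
      simp only [FL.outer, Pi.smul_apply, smul_eq_mul]
      congr 2
      funext i
      simp only [Function.comp]
      congr 1
      apply Fin.ext
      simp
    · subst hP
      refine AddSubgroup.closure_induction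
        (p := fun v _ => FL.outer (fun w => H.tc P z (w ∘ Fin.cast rfl)) v ∈ H.At (P.size + q))
        ?_ ?_ ?_ ?_ hv
      · rintro y (⟨hq, r, rfl⟩ | ⟨Q, hQ, z', hz', rfl⟩)
        · subst hq
          have h0 : (fun w => H.tc P z (w ∘ Fin.cast rfl)) ∈ H.At P.size :=
            AddSubgroup.subset_closure (Or.inr ⟨P, rfl, z, hz, rfl⟩)
          have h1 := rat H (P.size + 0) r _ h0
          convert h1 using 1
          funext w
          simp only [FL.outer, Pi.smul_apply, smul_eq_mul]
          rw [mul_comm]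
          congr 2
        · subst hQ
          refine AddSubgroup.subset_closure (Or.inr ⟨.prod P Q, rfl,
            W.pull (fst (P.obj H.X) (Q.obj H.X)) z * W.pull (snd (P.obj H.X) (Q.obj H.X)) z',
            ?_, ?_⟩)
          · have hPQ := 𝒱.prod (H.memP P) (H.memP Q)
            exact tot_mul H.hW hPQ (tot_pull H.hW hPQ (H.memP P) _ hz)
              (tot_pull H.hW hPQ (H.memP Q) _ hz')
          · have := ge.tc_outer P Q z z'
            rw [this]
            rfl
      · rw [outer_zero]; exact zero_mem _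
      · intro x y _ _ hx hy
        rw [outer_add]; exact add_mem hx hy
      · intro x _ hx
        rw [outer_neg]; exact neg_mem hx
  · rw [zero_outer]; exact zero_mem _
  · intro x y _ _ hx hy
    rw [add_outer]; exact add_mem hx hy
  · intro x _ hx
    rw [neg_outer]; exact neg_mem hx

/-! ### the parity -/

theorem s_conj {I Λ : Type} (D : Dat I Λ) (x : I) : (starRingEnd ℂ) (D.s x) = D.s x := by
  rcases D.s_val x with h | h <;> rw [h] <;> simp

theorem sg_conj {I Λ : Type} (D : Dat I Λ) {L : ℕ} (w : Fin L → I) :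
    (starRingEnd ℂ) (sg D w) = sg D w := by
  unfold sg
  rw [map_prod]
  exact Finset.prod_congr rfl fun i _ => s_conj D _

theorem s_tau_mul {I Λ : Type} (D : Dat I Λ) (x : I) (n : ℕ) (hn : D.odd (D.typ x) ↔ Odd n) :
    D.s (D.τ x) * D.s x = (-1) ^ n := by
  by_cases h : D.odd (D.typ x)
  · rw [(D.odd_τ x h).2, (hn.1 h).neg_one_pow]
    rcases D.s_val x with h | h <;> rw [h] <;> norm_num
  · obtain ⟨h1, h2⟩ := D.even_τ x h
    rw [h1, h2, (Nat.not_odd_iff_even.1 (fun h' => h (hn.2 h'))).neg_one_pow]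
    norm_num

theorem jT_jT_apply {L : ℕ} (u : Ten H.I L) (w : Fin L → H.I) :
    jT H.D (jT H.D u) w = (-1) ^ (H.od w) * u w := by
  have hτ : H.D.τ ∘ (H.D.τ ∘ w) = w := by
    funext i; exact H.D.τ_τ _
  have h1 : jT H.D (jT H.D u) w = sg H.D (H.D.τ ∘ w) * sg H.D w * u w := by
    unfold jT
    rw [hτ, map_mul, Complex.conj_conj, sg_conj]
    ring
  rw [h1]
  congr 1
  unfold sg PHost.od
  rw [← Finset.prod_mul_distrib, ← Finset.prod_pow_eq_pow_sum]
  exact Finset.prod_congr rfl fun i _ => s_tau_mul H.D (w i) _ (H.odd_iff _)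

theorem par (ge : H.GeFacts) (L : ℕ) (u : Ten H.I L) (hu : u ∈ H.At L) :
    jT H.D (jT H.D u) = u := by
  have key : ∀ w, u w ≠ 0 → Even (H.od w) := by
    refine AddSubgroup.closure_induction
      (p := fun u _ => ∀ w, u w ≠ 0 → Even (H.od w)) ?_ ?_ ?_ ?_ hu
    · rintro x (⟨hL, r, rfl⟩ | ⟨P, hP, z, hz, rfl⟩)
      · subst hL
        intro w _
        simp [PHost.od]
      · subst hP
        intro w hw
        exact ge.even P z hz w hw
    · intro w hw
      exact absurd rfl hw
    · intro x y _ _ hx hy w hw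
      by_cases h : x w = 0
      · exact hy w (by simpa [h] using hw)
      · exact hx w h
    · intro x _ hx w hw
      exact hx w (by simpa using hw)
  funext w
  rw [jT_jT_apply]
  by_cases h : u w = 0
  · rw [h, mul_zero]
  · rw [(key w h).neg_one_pow, one_mul]

end PGo

/-- Row PAS. -/
theorem pasys : PAsysStatement.{u, w} := by
  intro k _ W 𝒱 m H
  have ge := pge H
  exact
    { zero := fun L => zero_mem _
      add := fun L u v hu hv => add_mem hu hv
      qsmul := fun L q u hu => PGo.rat H L q u hu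
      one := (PGo.zero H _).2 ⟨1, by funext w; simp⟩
      rat := fun u hu => by
        obtain ⟨q, rfl⟩ := (PGo.zero H u).1 hu
        exact ⟨q, fun _ => rfl⟩
      perm := fun L σ u hu => pgp pge (pgr pge) H L σ u hu
      outer := fun p q u v hu hv => PGo.outer H ge p q u hu v hv
      cont := fun p c u v hu hv => pgc pge (pgr pge) (psl pge) H p c u hu v hv
      om := fun α => pom pge (psl pge) H α
      even := fun L u hu => PGo.par H ge L u hu }

end Pool.Agent.Lib.MP_361a6f_ag.FL
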