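import Pool.Agent.Lib.MP_361a6f_ag.FL.P.PGc
import Pool.Agent.Lib.MP_361a6f_ag.FL.AlgC
import Pool.Agent.Lib.MP_361a6f_ag.FL.O.Defs
import Pool.Agent.Lib.MP_361a6f_ag.FL.O.Rk

/-!
# Row RK: the rank of the intersection form and the rank of `ψ` on the tensors
-/

open CategoryTheory AlgebraicGeometry MonoidalCategory CartesianMonoidalCategory

universe u v w

set_option autoImplicit false
set_option linter.unusedSectionVars false

namespace Pool.Agent.Lib.MP_361a6f_ag.FL

open Pool.Agent.Lib.MP_361a6f_ag.H3 Pool.Agent.Lib.MP_361a6f_ag.SQ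
  Pool.Agent.Lib.MP_361a6f_ag.PP

namespace PRK

open OL PGC

section any

variable {k : Type u} [Field k] {W : CohomologyData.{u, 0, w} k ℂ} {𝒱 : VarietyClass k} {m : ℕ}
  (H : PHost W 𝒱 m)

open Classical in
/-- the part of an algebraic tensor that fits to the factors of `P` is the tensor of coordinates of
an algebraic class -/
theorem at_fit (gr : H.RelFacts) (ge : H.GeFacts) (P : Prd m) {u : Ten H.I P.size}
    (hu : u ∈ H.At P.size) : ∃ z ∈ tot W (P.obj H.X),
      ∀ w, H.tc P z w = if H.Off P w then 0 else u w := by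
  refine AddSubgroup.closure_induction (p := fun u _ => ∃ z ∈ tot W (P.obj H.X),
      ∀ w, H.tc P z w = if H.Off P w then 0 else u w) ?_ ?_ ?_ ?_ hu
  · rintro u (⟨h0, _⟩ | ⟨Q, h, y, hy, rfl⟩)
    · exact absurd h0 P.size_posC.ne'
    · by_cases hl : ∀ i, P.lw i = Q.lw (Fin.cast h.symm i)
      · obtain ⟨h', ht⟩ := gr.tc P Q (gr.coh P Q h.symm hl)
        obtain ⟨z', hz', hw⟩ := ht y hy
        refine ⟨z', hz', fun w => ?_⟩
        by_cases ho : H.Off P w
        · rw [if_pos ho, ge.tc_off P z' w ho]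
        · rw [if_neg ho]
          exact hw w
      · push Not at hl
        obtain ⟨i, hi⟩ := hl
        refine ⟨0, zero_mem _, fun w => ?_⟩
        rw [map_zero]
        by_cases ho : H.Off P w
        · rw [if_pos ho]
          rfl
        · rw [if_neg ho]
          have h1 : (H.D.typ (w i)).1 = P.lw i := by
            by_contra h2
            exact ho ⟨i, h2⟩
          have h2 : H.Off Q (w ∘ Fin.cast h) := by
            refine ⟨Fin.cast h.symm i, ?_⟩
            change (H.D.typ (w i)).1 ≠ _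
            rw [h1]
            exact hi
          exact (ge.tc_off Q y _ h2).symm
  · refine ⟨0, zero_mem _, fun w => ?_⟩
    rw [map_zero]
    split_ifs <;> rfl
  · rintro a b _ _ ⟨z, hz, h1⟩ ⟨z', hz', h2⟩
    refine ⟨z + z', add_mem hz hz', fun w => ?_⟩
    rw [map_add, Pi.add_apply, h1, h2]
    split_ifs
    · rw [add_zero]
    · rfl
  · rintro a _ ⟨z, hz, h1⟩
    refine ⟨-z, neg_mem hz, fun w => ?_⟩
    rw [map_neg, Pi.neg_apply, h1]
    split_ifs
    · rw [neg_zero]
    · rfl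

/-- multiplication by the signs as a linear map -/
noncomputable def smL (L : ℕ) : Ten H.I L →ₗ[ℂ] Ten H.I L where
  toFun := sm H
  map_add' u v := by
    funext w
    simp only [sm, Pi.add_apply]
    ring
  map_smul' c u := by
    funext w
    simp only [sm, Pi.smul_apply, smul_eq_mul, RingHom.id_apply]
    ring

theorem smL_apply {L : ℕ} (u : Ten H.I L) : smL H L u = sm H u := rfl

theorem smL_inj (L : ℕ) : Function.Injective (smL H L) := fun u v h => by
  have h1 : sm H (sm H u) = sm H (sm H v) := congrArg (sm H) h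
  rwa [sm_sm, sm_sm] at h1

/-- the system of the host -/
abbrev AtP (L : ℕ) (u : Ten H.I L) : Prop := u ∈ H.At L

theorem sm_CA (hsl : H.SlotFacts) {L : ℕ} {u : Ten H.I L} (hu : u ∈ CA (AtP H) L) :
    sm H u ∈ CA (AtP H) L := by
  have h : CA (AtP H) L ≤ (CA (AtP H) L).comap (smL H L) := by
    conv_lhs => rw [CA]
    refine Submodule.span_le.2 fun v hv => ?_
    exact Submodule.subset_span (sm_mem H hsl hv)
  exact h hu

end any

variable {k : Type u} [Field k] {W : CohomologyData.{u, 0, w} k ℂ} {𝒱 : VarietyClass k}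
  (H : PHost W 𝒱 1)

theorem not_off (P : Prd 1) (w : Fin P.size → H.I) : ¬ H.Off P w := by
  rintro ⟨i, hi⟩
  exact hi (Subsingleton.elim _ _)

/-- the tensors of algebraic classes are the coordinates of algebraic classes -/
theorem mem_At (gr : H.RelFacts) (ge : H.GeFacts) (P : Prd 1) (u : Ten H.I P.size) :
    u ∈ H.At P.size ↔ ∃ z ∈ tot W (P.obj H.X), H.tc P z = u := by
  constructor
  · intro hu
    obtain ⟨z, hz, h⟩ := at_fit H gr ge P hu
    refine ⟨z, hz, funext fun w => ?_⟩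
    rw [h w, if_neg (not_off H P w)]
  · rintro ⟨z, hz, rfl⟩
    exact tc_mem H hz

theorem algC_eq {Y : Sch k} : algC W Y = Submodule.span ℂ {z | z ∈ tot W Y} := by
  refine le_antisymm (Submodule.span_mono ?_) (Submodule.span_le.2 ?_)
  · rintro z ⟨l, hz⟩
    exact le_iSup (fun j => W.alg Y j) l hz
  · intro z hz
    have h1 : tot W Y ≤ (algC W Y).toAddSubgroup :=
      iSup_le fun l x hx => Submodule.subset_span ⟨l, hx⟩
    exact h1 hz

theorem map_CA (gr : H.RelFacts) (ge : H.GeFacts) (P : Prd 1) :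
    (algC W (P.obj H.X)).map (H.tc P) = CA (AtP H) P.size := by
  rw [algC_eq, Submodule.map_span]
  unfold CA
  congr 1
  ext u
  exact ((mem_At H gr ge P u).trans ⟨fun ⟨z, h, e⟩ => ⟨z, h, e⟩, fun ⟨z, h, e⟩ => ⟨z, h, e⟩⟩).symm

/-- **(s1)** -/
theorem finrank_CA (gr : H.RelFacts) (ge : H.GeFacts) (P : Prd 1) :
    Module.finrank ℂ (CA (AtP H) P.size) = Module.finrank ℂ (algC W (P.obj H.X)) := by
  rw [← map_CA H gr ge P]
  exact ((Submodule.equivMapOfInjective (H.tc P) (ge.inj P) _).finrank_eq).symm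

/-- orthogonality to the algebraic classes in terms of `psi` -/
theorem orth_iff (ge : H.GeFacts) (P : Prd 1) (z : W.coh (P.obj H.X)) :
    (∀ l y, W.IsAlg (P.obj H.X) l y → W.Tr (W.cup z y) = 0) ↔
      ∀ y ∈ tot W (P.obj H.X), psiT H.D (sm H (H.tc P z)) (H.tc P y) = 0 := by
  constructor
  · intro h y hy
    rw [psi_sm H ge]
    refine tot_induction H.hW (P := fun y => W.tr (P.obj H.X) (z * y) = 0) hy ?_ ?_
    · intro l y hy
      exact h l y hy
    · intro a b ha hb
      rw [mul_add, map_add, ha, hb, add_zero]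
  · intro h l y hy
    have h1 := h y (alg_le_tot H.hW _ l hy)
    rwa [psi_sm H ge] at h1

theorem map_numC (hsl : H.SlotFacts) (gr : H.RelFacts) (ge : H.GeFacts) (P : Prd 1) :
    (numC W (P.obj H.X)).map (smL H P.size ∘ₗ H.tc P)
      = ORk.radC (Qps.psiL H.D P.size) {u | u ∈ H.At P.size} := by
  have hCA := map_CA H gr ge P
  ext u
  constructor
  · rintro ⟨z, hz, rfl⟩
    refine ⟨?_, fun v hv => ?_⟩
    · have h1 : H.tc P z ∈ CA (AtP H) P.size := by
        rw [← hCA]
        exact ⟨z, hz.1, rfl⟩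
      exact sm_CA H hsl h1
    · obtain ⟨y, hy, rfl⟩ := (mem_At H gr ge P v).1 hv
      rw [Qps.psiL_apply]
      exact (orth_iff H ge P z).1 hz.2 y hy
  · rintro ⟨hu, hv⟩
    have h1 : sm H u ∈ CA (AtP H) P.size := sm_CA H hsl hu
    rw [← hCA] at h1
    obtain ⟨z, hz, hzu⟩ := h1
    have h2 : sm H (H.tc P z) = u := by rw [hzu, sm_sm]
    refine ⟨z, ⟨hz, (orth_iff H ge P z).2 fun y hy => ?_⟩, h2⟩
    rw [h2, ← Qps.psiL_apply]
    exact hv _ (tc_mem H hy)

theorem inj' (ge : H.GeFacts) (P : Prd 1) :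
    Function.Injective (smL H P.size ∘ₗ H.tc P) := (smL_inj H _).comp (ge.inj P)

theorem finrank_numC (hsl : H.SlotFacts) (gr : H.RelFacts) (ge : H.GeFacts)
    (P : Prd 1) : Module.finrank ℂ (numC W (P.obj H.X))
      = Module.finrank ℂ (ORk.radC (Qps.psiL H.D P.size) {u | u ∈ H.At P.size}) := by
  rw [← map_numC H hsl gr ge P]
  exact (Submodule.equivMapOfInjective _ (inj' H ge P) _).finrank_eq

theorem at_im (hsl : H.SlotFacts) (ge : H.GeFacts) (gr : H.RelFacts) (P : Prd 1) :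
    ∀ u ∈ {u : Ten H.I P.size | u ∈ H.At P.size}, ∀ v ∈ {u : Ten H.I P.size | u ∈ H.At P.size},
      (Qps.psiL H.D P.size u v).im = 0 := by
  intro u hu v hv
  obtain ⟨x, hx, h1⟩ := (mem_At H gr ge P _).1 (sm_mem H hsl hu)
  obtain ⟨y, hy, rfl⟩ := (mem_At H gr ge P v).1 hv
  have h2 : u = sm H (H.tc P x) := by rw [h1, sm_sm]
  rw [Qps.psiL_apply, h2, psi_sm H ge]
  obtain ⟨q, hq⟩ := tot_tr H.hW (H.memP P) (tot_mul H.hW (H.memP P) hx hy)
  rw [hq]
  exact Complex.ratCast_im q

theorem numA_eq (P : Prd 1) : numA H.D (AtP H) P.size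
    = ORk.radR (Qps.psiL H.D P.size) {u | u ∈ H.At P.size} := rfl

/-- **(s2) The rank of `ψ` is the rank of the intersection form.** -/
theorem rkA_eq (hsl : H.SlotFacts) (gr : H.RelFacts) (ge : H.GeFacts) (P : Prd 1) :
    rkA H.D (AtP H) P.size = rankN W (P.obj H.X) := by
  have h : rankN W (P.obj H.X) = Module.finrank ℂ (algC W (P.obj H.X))
      - Module.finrank ℂ (numC W (P.obj H.X)) := rfl
  rw [h, finrank_numC H hsl gr ge P, ← finrank_CA H gr ge P]
  exact ORk.rank_eq (B := Qps.psiL H.D P.size) (at_im H hsl ge gr P)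

/-- **(s3) A numerically trivial class gives a numerically trivial tensor.** -/
theorem exists_numA (hsl : H.SlotFacts) (gr : H.RelFacts) (ge : H.GeFacts) (P : Prd 1) {l : ℕ}
    {z : W.coh (P.obj H.X)} (hz : W.IsAlg (P.obj H.X) l z) (h0 : z ≠ 0)
    (h : ∀ j y, W.IsAlg (P.obj H.X) j y → W.Tr (W.cup z y) = 0) :
    ∃ u ∈ numA H.D (AtP H) P.size, u ≠ 0 := by
  refine ⟨sm H (H.tc P z), ?_, fun h1 => h0 (inj' H ge P (h1.trans (map_zero _).symm))⟩
  rw [numA_eq]
  refine ORk.mem_radR (S := {u : Ten H.I P.size | u ∈ H.At P.size}) ?_ fun v hv => ?_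
  · exact Submodule.subset_span (sm_mem H hsl (tc_mem H (alg_le_tot H.hW _ l hz)))
  · obtain ⟨y, hy, rfl⟩ := (mem_At H gr ge P v).1 hv
    rw [Qps.psiL_apply]
    exact (orth_iff H ge P z).1 h y hy

/-- **(s3') if there is a nonzero element of `numC` then there is one of `numA`** -/
theorem numC_bot (hsl : H.SlotFacts) (gr : H.RelFacts) (ge : H.GeFacts) (P : Prd 1)
    (h : numA H.D (AtP H) P.size = ⊥) : numC W (P.obj H.X) = ⊥ := by
  have h1 := map_numC H hsl gr ge P
  rw [ORk.radC_eq_bot (at_im H hsl ge gr P) (by rw [← numA_eq, h])] at h1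
  exact Submodule.map_injective_of_injective (f := smL H P.size ∘ₗ H.tc P) (inj' H ge P)
    (h1.trans (Submodule.map_bot _).symm)

/-- the coordinates give all tensors -/
theorem tc_surj (ge : H.GeFacts) (P : Prd 1) : Function.Surjective (H.tc P) := fun u =>
  ⟨_, ge.tc_sum P u fun w hw => absurd hw (not_off H P w)⟩

/-- **(s4)** the number of letters is the dimension of the cohomology of the variety -/
theorem card_I (ge : H.GeFacts) : Fintype.card H.I = Module.finrank ℂ (W.coh (H.X 0)) := by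
  have e : W.coh ((Prd.leaf 0 : Prd 1).obj H.X) ≃ₗ[ℂ] Ten H.I (Prd.leaf 0 : Prd 1).size :=
    LinearEquiv.ofBijective (H.tc (.leaf 0)) ⟨ge.inj _, tc_surj H ge _⟩
  have h1 := e.finrank_eq
  have h2 : Module.finrank ℂ (Ten H.I (Prd.leaf 0 : Prd 1).size)
      = Fintype.card (Fin 1 → H.I) := Module.finrank_fintype_fun_eq_card ℂ
  have h3 : Fintype.card (Fin 1 → H.I) = Fintype.card H.I := by
    rw [Fintype.card_fun, Fintype.card_fin, pow_one]
  rw [← h3, ← h2, ← h1]
  rfl

/-- **(s5)** two members of length one with `ψ ≠ 0`, from an algebraic class `p` of nonzero trace -/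
theorem exists_one (hsl : H.SlotFacts) (ge : H.GeFacts) {p : W.coh (H.X 0)}
    (hp : p ∈ tot W (H.X 0)) (h : W.tr (H.X 0) p ≠ 0) :
    ∃ u ∈ RA (AtP H) 1, ∃ v ∈ RA (AtP H) 1, psiT H.D u v ≠ 0 := by
  refine ⟨sm H (H.tc (.leaf 0) p), ?_, H.tc (.leaf 0) (1 : W.coh (H.X 0)), ?_, ?_⟩
  · exact Submodule.subset_span (sm_mem H hsl (tc_mem (P := .leaf 0) H hp))
  · exact Submodule.subset_span (tc_mem (P := .leaf 0) H (one_tot H.hW (H.mem 0)))
  · intro h1
    have h2 : W.tr (H.X 0) (p * 1) = 0 := (psi_sm H ge (.leaf 0) p (1 : W.coh (H.X 0))).symm.trans h1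
    exact h (by rwa [mul_one] at h2)

end PRK

end Pool.Agent.Lib.MP_361a6f_ag.FL
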