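import Pool.Agent.Lib.MP_361a6f_ag.FL.S.Stat
import Pool.Agent.Lib.MP_361a6f_ag.FL.S.SPt
import Pool.Agent.Lib.MP_361a6f_ag.FL.P.PGb
import Pool.Agent.Lib.MP_361a6f_ag.FL.P.PAsys
import Pool.Agent.Lib.MP_361a6f_ag.FL.P.Rk
import Pool.Agent.Lib.MP_361a6f_ag.FL.O.T2M
import Pool.Agent.Lib.MP_361a6f_ag.FL.O.H54.T2r

/-!
# The inverse square root law: assembly
-/

open CategoryTheory AlgebraicGeometry MonoidalCategory CartesianMonoidalCategory

universe u v w

set_option autoImplicit false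
set_option linter.unusedSectionVars false

namespace Pool.Agent.Lib.MP_361a6f_ag.FL

open Pool.Agent.Lib.MP_361a6f_ag.H3 Pool.Agent.Lib.MP_361a6f_ag.SQ
  Pool.Agent.Lib.MP_361a6f_ag.PP

namespace PMain

open OL PRK

section proj

variable {k : Type u} [Field k] {W : CohomologyData.{u, 0, w} k ℂ} {𝒱 : VarietyClass k}

/-- if the even Kuenneth projector is algebraic, then so is the operator `(-1)^i` on `H^i` -/
theorem algPar (hW : IsWeilCohomology W 𝒱) {X : Sch k} {n : ℕ} (hX : 𝒱.mem X n)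
    (hE : EvenProjector W X n) : AlgPar W X := by
  obtain ⟨γ, hγ, hact⟩ := hE
  have hu : AlgOp W X (SPT.opr γ) := ⟨γ, alg_le_tot hW (X ⊗ X) n hγ, fun s => rfl⟩
  refine ⟨((2 : ℚ) : ℂ) • SPT.opr γ + ((-1 : ℚ) : ℂ) • LinearMap.id,
    AlgOp.add hW hX (AlgOp.smul hW hX 2 hu) (AlgOp.smul hW hX (-1) (AlgOp.id hW hX)), ?_⟩
  intro i s hs
  have h1 : SPT.opr γ s = if Even i then s else 0 := hact i s hs
  rw [LinearMap.add_apply, LinearMap.smul_apply, LinearMap.smul_apply, LinearMap.id_apply, h1]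
  split_ifs with hi
  · rw [hi.neg_one_pow]
    push_cast
    module
  · rw [(Nat.not_even_iff_odd.1 hi).neg_one_pow]
    push_cast
    module

/-- a morphism from a power to the variety -/
noncomputable def toX (X : Sch k) : (P : Prd 1) → (P.obj (fun _ => X) ⟶ X)
  | .leaf _ => 𝟙 X
  | .prod P Q => fst (P.obj fun _ => X) (Q.obj fun _ => X) ≫ toX X P

theorem one_ne {X : Sch k} (R : Prd 1) {z : W.coh (R.obj fun _ => X)} (hz : z ≠ 0) :
    (1 : W.coh X) ≠ 0 := by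
  intro h
  have h1 : (1 : W.coh (R.obj fun _ => X)) = 0 := by
    rw [← map_one (W.pull (toX X R)), h, map_zero]
  exact hz (by rw [← mul_one z, h1, mul_zero])

end proj

section law

variable (L : ℕ → ℕ → ℕ → Prop) (d r : ℕ)

/-- `L n (rank) (dimension)` holds for all systems of dimension `d` with a numerically trivial
element of length `r` -/
def AbsLaw : Prop :=
  ∀ {I Λ : Type} [Fintype I] [DecidableEq I] [DecidableEq Λ] {D : Dat I Λ}
    {At : (L : ℕ) → Ten I L → Prop} (_ : Fintype.card I = d) (_ : ASys D At)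
    (_ : ∃ u ∈ RA At 1, ∃ w ∈ RA At 1, psiT D u w ≠ 0) (_ : ∃ z ∈ numA D At r, z ≠ 0) (n : ℕ),
    L n (rkA D At n) (Module.finrank ℂ (CA At n))

variable {L d r} {k : Type u} [Field k] {W : CohomologyData.{u, 0, w} k ℂ} {𝒱 : VarietyClass k}

theorem host_law (hL : AbsLaw L d r) (H : PHost W 𝒱 1)
    (hd : Module.finrank ℂ (W.coh (H.X 0)) = d)
    {p : W.coh (H.X 0)} (hp : p ∈ tot W (H.X 0)) (hp0 : W.tr (H.X 0) p ≠ 0)
    (R : Prd 1) (hR : R.size = r) (l : ℕ) (z : W.coh (R.obj H.X))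
    (hz : W.IsAlg (R.obj H.X) l z) (hz0 : z ≠ 0)
    (hzn : ∀ j y, W.IsAlg (R.obj H.X) j y → W.Tr (W.cup z y) = 0) (P : Prd 1) :
    L P.size (rankN W (P.obj H.X)) (Module.finrank ℂ (algC W (P.obj H.X))) := by
  have ge := pge H
  have gr := pgr pge H
  have hsl := psl pge H
  have h1 := exists_numA H hsl gr ge R hz hz0 hzn
  rw [hR] at h1
  have h2 := hL ((card_I H ge).trans hd) (pasys H) (exists_one H hsl ge hp hp0) h1 P.size
  rwa [rkA_eq H hsl gr ge, finrank_CA H gr ge] at h2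

theorem transfer (hL : AbsLaw L d r) (hW : IsWeilCohomology W 𝒱) {X : Sch k} {e : ℕ}
    (hX : 𝒱.mem X e) (hE : EvenProjector W X e) (hd : Module.finrank ℂ (W.coh X) = d)
    (R : Prd 1) (hR : R.size = r) (l : ℕ) (z : W.coh (R.obj fun _ => X))
    (hz : W.IsAlg (R.obj fun _ => X) l z) (hz0 : z ≠ 0)
    (hzn : ∀ j y, W.IsAlg (R.obj fun _ => X) j y → W.Tr (W.cup z y) = 0) (P : Prd 1) :
    L P.size (rankN W (P.obj fun _ => X)) (Module.finrank ℂ (algC W (P.obj fun _ => X))) := by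
  obtain ⟨p, hp, t, ht, hpt⟩ := SPT.spt hW hX hE (one_ne R hz0)
  have hp0 : W.tr X p ≠ 0 := by
    have h1 : W.tr X p = (t : ℂ) := hpt
    rw [h1]
    exact_mod_cast ht.ne'
  have hp' : p ∈ tot W X := alg_le_tot hW X e hp
  obtain ⟨H, hHX, hHn⟩ := pgb hW (X := fun _ : Fin 1 => X) (n := fun _ => e) (fun _ => hX)
    (fun _ => algPar hW hX hE)
  have hHX0 : H.X 0 = X := congrFun hHX 0
  have key : ∀ (Y : Fin 1 → Sch k) (_ : H.X = Y) (_ : Module.finrank ℂ (W.coh (Y 0)) = d)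
      {p : W.coh (Y 0)} (_ : p ∈ tot W (Y 0)) (_ : W.tr (Y 0) p ≠ 0)
      (z : W.coh (R.obj Y)) (_ : W.IsAlg (R.obj Y) l z) (_ : z ≠ 0)
      (_ : ∀ j y, W.IsAlg (R.obj Y) j y → W.Tr (W.cup z y) = 0),
      L P.size (rankN W (P.obj Y)) (Module.finrank ℂ (algC W (P.obj Y))) := by
    intro Y hY hd p hp hp0 z hz hz0 hzn
    subst hY
    exact host_law hL H hd hp hp0 R hR l z hz hz0 hzn P
  exact key (fun _ => X) hHX hd hp' hp0 z hz hz0 hzn

end law

/-- **The inverse square root law.** -/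
theorem root_law : RootLawStatement.{u, w} := by
  intro d r
  obtain ⟨C, _, hC⟩ := O54.t2r alg1 alg2 (algB alg1 alg2) cptbH (minb alg1) T2A.hl1 T2A.hl2 d r
  refine ⟨C, ?_⟩
  intro k _ W 𝒱 hW X e hX hE hd R hR l z hz hz0 hzn P
  exact transfer (L := fun n a b => √n * a ≤ C * b) (fun h1 h2 h3 h4 n => hC h1 h2 h3 h4 n)
    hW hX hE hd R hR l z hz hz0 hzn P

end PMain

end Pool.Agent.Lib.MP_361a6f_ag.FL
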