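import Pool.Agent.Lib.MP_361a6f_ag.FL.P.StatP

/-!
# The inverse square root law and the growth of the rank with explicit constants: statements
-/

open CategoryTheory AlgebraicGeometry MonoidalCategory CartesianMonoidalCategory

universe u v w

namespace Pool.Agent.Lib.MP_361a6f_ag.FL

open Pool.Agent.Lib.MP_361a6f_ag.H3 Pool.Agent.Lib.MP_361a6f_ag.SQ
  Pool.Agent.Lib.MP_361a6f_ag.PP

/-- **The inverse square root law**, with its constant. For every variety `X` whose even Kuenneth
projector is algebraic: if on the product of `r` copies of `X` there is an algebraic class `z ≠ 0`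
that is numerically equivalent to `0`, then on the product of any number `n` of copies of `X` the
rank of the intersection form on the algebraic classes is at most `C / √n` times the dimension of
their span, `C = 320 (r + 1) d ^ 3`, `d = dim H^*(X)`. -/
def ExplicitRootLawStatement : Prop :=
  ∀ {k : Type u} [Field k] (W : CohomologyData.{u, 0, w} k ℂ)
    (𝒱 : VarietyClass k) (_ : IsWeilCohomology W 𝒱) {X : Sch k} {e : ℕ} (_ : 𝒱.mem X e)
    (_ : EvenProjector W X e) (R : Prd 1) (l : ℕ) (z : W.coh (R.obj fun _ => X))
    (_ : W.IsAlg (R.obj fun _ => X) l z) (_ : z ≠ 0)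
    (_ : ∀ j y, W.IsAlg (R.obj fun _ => X) j y → W.Tr (W.cup z y) = 0) (P : Prd 1),
    √P.size * rankN W (P.obj fun _ => X) ≤
      320 * ((R.size : ℝ) + 1) * (Module.finrank ℂ (W.coh X) : ℝ) ^ 3 *
        Module.finrank ℂ (algC W (P.obj fun _ => X))

/-- **The growth of the rank**, with its constants. For every variety `X` whose even Kuenneth
projector is algebraic, `d = dim H^*(X)`, the rank of the intersection form on the algebraic classes
of the product of `n` copies of `X` is at least `d ^ n / (600 d ^ 3 n) ^ (d ^ 2)`. -/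
def ExplicitRankGrowthStatement : Prop :=
  ∀ {k : Type u} [Field k] (W : CohomologyData.{u, 0, w} k ℂ)
    (𝒱 : VarietyClass k) (_ : IsWeilCohomology W 𝒱) {X : Sch k} {e : ℕ} (_ : 𝒱.mem X e)
    (_ : EvenProjector W X e) (P : Prd 1),
    (Module.finrank ℂ (W.coh X) : ℝ) ^ P.size ≤
      (600 * (Module.finrank ℂ (W.coh X) : ℝ) ^ 3 * P.size) ^ (Module.finrank ℂ (W.coh X) ^ 2) *
        rankN W (P.obj fun _ => X)

end Pool.Agent.Lib.MP_361a6f_ag.FL
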