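import Pool.Agent.Lib.MP_361a6f_ag.FL.O.Grow52
import Pool.Agent.Lib.MP_361a6f_ag.FL.P.MainP
import Pool.Agent.Lib.MP_361a6f_ag.FL.P.StatR52

/-!
# The inverse square root law and the growth of the rank with explicit constants: assembly
-/

open CategoryTheory AlgebraicGeometry MonoidalCategory CartesianMonoidalCategory

universe u v w

set_option autoImplicit false

namespace Pool.Agent.Lib.MP_361a6f_ag.FL

open Pool.Agent.Lib.MP_361a6f_ag.H3 Pool.Agent.Lib.MP_361a6f_ag.SQ
  Pool.Agent.Lib.MP_361a6f_ag.PP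

namespace PMainR

open OL PRK PMain

section law0

variable (L : ℕ → ℕ → Prop) (d : ℕ)

/-- `L n (rank)` holds for all systems of dimension `d` -/
def AbsLaw0 : Prop :=
  ∀ {I Λ : Type} [Fintype I] [DecidableEq I] [DecidableEq Λ] {D : Dat I Λ}
    {At : (L : ℕ) → Ten I L → Prop} (_ : Fintype.card I = d) (_ : ASys D At)
    (_ : ∃ u ∈ RA At 1, ∃ w ∈ RA At 1, psiT D u w ≠ 0) (n : ℕ), L n (rkA D At n)

variable {L d} {k : Type u} [Field k] {W : CohomologyData.{u, 0, w} k ℂ} {𝒱 : VarietyClass k}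

theorem host_law0 (hL : AbsLaw0 L d) (H : PHost W 𝒱 1)
    (hd : Module.finrank ℂ (W.coh (H.X 0)) = d)
    {p : W.coh (H.X 0)} (hp : p ∈ tot W (H.X 0)) (hp0 : W.tr (H.X 0) p ≠ 0) (P : Prd 1) :
    L P.size (rankN W (P.obj H.X)) := by
  have ge := pge H
  have gr := pgr pge H
  have hsl := psl pge H
  have h2 := hL ((card_I H ge).trans hd) (pasys H) (exists_one H hsl ge hp hp0) P.size
  rwa [rkA_eq H hsl gr ge] at h2

theorem transfer0 (hL : AbsLaw0 L d) (hW : IsWeilCohomology W 𝒱) {X : Sch k} {e : ℕ}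
    (hX : 𝒱.mem X e) (hE : EvenProjector W X e) (hd : Module.finrank ℂ (W.coh X) = d)
    (h1 : (1 : W.coh X) ≠ 0) (P : Prd 1) : L P.size (rankN W (P.obj fun _ => X)) := by
  obtain ⟨p, hp, t, ht, hpt⟩ := SPT.spt hW hX hE h1
  have hp0 : W.tr X p ≠ 0 := by
    have h1 : W.tr X p = (t : ℂ) := hpt
    rw [h1]
    exact_mod_cast ht.ne'
  have hp' : p ∈ tot W X := alg_le_tot hW X e hp
  obtain ⟨H, hHX, hHn⟩ := pgb hW (X := fun _ : Fin 1 => X) (n := fun _ => e) (fun _ => hX)
    (fun _ => algPar hW hX hE)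
  have hHX0 : H.X 0 = X := congrFun hHX 0
  have key : ∀ (Y : Fin 1 → Sch k) (_ : H.X = Y) (_ : Module.finrank ℂ (W.coh (Y 0)) = d)
      {p : W.coh (Y 0)} (_ : p ∈ tot W (Y 0)) (_ : W.tr (Y 0) p ≠ 0),
      L P.size (rankN W (P.obj Y)) := by
    intro Y hY hd p hp hp0
    subst hY
    exact host_law0 hL H hd hp hp0 P
  exact key (fun _ => X) hHX hd hp' hp0

theorem size_pos : ∀ P : Prd 1, 0 < P.size
  | .leaf _ => Nat.one_pos
  | .prod P Q => Nat.add_pos_left (size_pos P) Q.size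

end law0

/-- **The inverse square root law.** -/
theorem explicit_root : ExplicitRootLawStatement.{u, w} := by
  intro k _ W 𝒱 hW X e hX hE R l z hz hz0 hzn P
  refine transfer (d := Module.finrank ℂ (W.coh X)) (r := R.size)
    (L := fun n a b => √n * (a : ℝ) ≤
      320 * ((R.size : ℝ) + 1) * (Module.finrank ℂ (W.coh X) : ℝ) ^ 3 * b)
    ?_ hW hX hE rfl R rfl l z hz hz0 hzn P
  intro I Λ _ _ _ D At hI S hu hz n
  have h := O52.root_c alg1 alg2 (algB alg1 alg2) cptbH (minb alg1) T2A.hl1 T2A.hl2 S hu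
    R.size hz n
  rwa [hI] at h

/-- **The growth of the rank.** -/
theorem explicit_growth : ExplicitRankGrowthStatement.{u, w} := by
  intro k _ W 𝒱 hW X e hX hE P
  by_cases h1 : (1 : W.coh X) = 0
  · have h2 : Subsingleton (W.coh X) := by
      refine ⟨fun a b => ?_⟩
      rw [← mul_one a, ← mul_one b, h1, mul_zero, mul_zero]
    have h3 : Module.finrank ℂ (W.coh X) = 0 := Module.finrank_zero_of_subsingleton
    rw [h3, Nat.cast_zero, zero_pow (size_pos P).ne']
    positivity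
  · have h2 := transfer0 (d := Module.finrank ℂ (W.coh X))
      (L := fun n a => 0 < n → (Module.finrank ℂ (W.coh X) : ℝ) ^ n ≤
        (600 * (Module.finrank ℂ (W.coh X) : ℝ) ^ 3 * n) ^ (Module.finrank ℂ (W.coh X) ^ 2) *
          (a : ℝ))
      (by
        intro I Λ _ _ _ D At hI S hu n hn
        have h := O52.grow_c alg1 alg2 (algB alg1 alg2) cptbH (minb alg1) T2A.hl1 T2A.hl2 S hu
          n hn
        rwa [hI] at h) hW hX hE rfl h1 P
    exact h2 (size_pos P)

end PMainR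

end Pool.Agent.Lib.MP_361a6f_ag.FL
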