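import Pool.Agent.Lib.MP_361a6f_ag.FL.P.StatP
import Pool.Agent.Lib.MP_361a6f_ag.FL.P.EvP
import Pool.Agent.Lib.MP_361a6f_ag.FL.B.HopF

/-!
# Algebraicity of the even Kuenneth projector
-/

universe u w

namespace Pool.Agent.Lib.MP_361a6f_ag.FL

theorem projector : ProjectorStatement.{u, w} := by
  intro k _ W 𝒱 hW X e hX
  refine ⟨?_, fun hU h0 y hy =>
    evp_abelian hW hX (abelianType_of_unital hW hX h0 hU hy) hU⟩
  rintro F ⟨p, q, hpq, hp, hq⟩
  exact evp_coprime hW hX F p q hpq hp hq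

end Pool.Agent.Lib.MP_361a6f_ag.FL
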