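import Pool.Agent.Lib.MP_361a6f_ag.FL.GeoDefs
import Pool.Agent.Lib.MP_361a6f_ag.FL.Qps
import Pool.Agent.Lib.MP_361a6f_ag.FL.Bas

/-!
# The pairing host

Coordinates for the Poincaré pairing `Tr(x y)`, without Lefschetz operators: the letters are the
parities. Here the only hypothesis is that the operator `(-1)^i` on `H^i` is algebraic.
-/

open CategoryTheory AlgebraicGeometry MonoidalCategory CartesianMonoidalCategory

universe u v w

set_option autoImplicit false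

namespace Pool.Agent.Lib.MP_361a6f_ag.FL

open Pool.Agent.Lib.MP_361a6f_ag.H3 Pool.Agent.Lib.MP_361a6f_ag.SQ
  Pool.Agent.Lib.MP_361a6f_ag.PP

variable {k : Type u} [Field k] {m : ℕ}

noncomputable section

/-- the sum of the `H^i(X)` with `i ≡ b` modulo `2` -/
def par (W : CohomologyData.{u, 0, w} k ℂ) (X : Sch k) (b : ℕ) : Submodule ℂ (W.coh X) :=
  ⨆ i : ℕ, W.gr X (2 * i + b % 2)

/-- the operator `(-1)^i` on `H^i(X)` is algebraic -/
def AlgPar (W : CohomologyData.{u, 0, w} k ℂ) (X : Sch k) : Prop :=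
  ∃ u : W.coh X →ₗ[ℂ] W.coh X, AlgOp W X u ∧ ∀ i, ∀ x ∈ W.gr X i, u x = (-1 : ℂ) ^ i • x

/-- the sign `(-1)^(r(r-1)/2)` -/
def sn : ℕ → ℂ
  | 0 => 1
  | r + 1 => (-1) ^ r * sn r

/-- Factors with complex coefficients, with bases adapted to the Poincaré pairing; the letter of
`x` is a pair (factor, parity), and `e a x` is zero if the letter of `x` does not belong to the
factor `a`. -/
structure PHost (W : CohomologyData.{u, 0, w} k ℂ) (𝒱 : VarietyClass k) (m : ℕ) where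
  hW : IsWeilCohomology W 𝒱
  X : Fin m → Sch k
  n : Fin m → ℕ
  mem : ∀ a, 𝒱.mem (X a) (n a)
  eps : ∀ a, AlgPar W (X a)
  I : Type
  [fin : Fintype I]
  [dec : DecidableEq I]
  D : Dat I (Fin m × ℕ)
  odd_iff : ∀ l, D.odd l ↔ Odd l.2
  lt_two : ∀ x, (D.typ x).2 < 2
  e : ∀ a, I → W.coh (X a)
  e_ne : ∀ a x, (D.typ x).1 ≠ a → e a x = 0
  e_par : ∀ a x, e a x ∈ par W (X a) (D.typ x).2
  e_tr : ∀ a x y, (D.typ x).1 = a → (D.typ y).1 = a →
    W.tr (X a) (e a x * e a y) = if y = D.τ x then D.s x else 0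
  e_span : ∀ a, Submodule.span ℂ (Set.range (e a)) = ⊤

attribute [instance] PHost.fin PHost.dec

namespace PHost

variable {W : CohomologyData.{u, 0, w} k ℂ} {𝒱 : VarietyClass k} (H : PHost W 𝒱 m)

theorem memP (P : Prd m) : 𝒱.mem (P.obj H.X) (P.dim H.n) := FL.memP H.mem P

/-- the number of odd letters of a word -/
def od {L : ℕ} (w : Fin L → H.I) : ℕ := ∑ i, (H.D.typ (w i)).2

/-- the exterior product of basis vectors that belongs to a word -/
def E : (P : Prd m) → (Fin P.size → H.I) → W.coh (P.obj H.X)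
  | .leaf a, w => H.e a (w ⟨0, Nat.one_pos⟩)
  | .prod P Q, w => W.pull (fst (P.obj H.X) (Q.obj H.X)) (E P (fun i => w (Fin.castAdd Q.size i)))
      * W.pull (snd (P.obj H.X) (Q.obj H.X)) (E Q (fun i => w (Fin.natAdd P.size i)))

/-- the coordinates of a class -/
def tc (P : Prd m) : W.coh (P.obj H.X) →ₗ[ℂ] Ten H.I P.size :=
  LinearMap.pi fun w => (sg H.D w * sn (H.od w)) • ((W.tr (P.obj H.X)) ∘ₗ
    (LinearMap.mulRight ℂ (H.E P (H.D.τ ∘ w))))

theorem tc_apply (P : Prd m) (z : W.coh (P.obj H.X)) (w : Fin P.size → H.I) :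
    H.tc P z w = sg H.D w * sn (H.od w) * W.tr (P.obj H.X) (z * H.E P (H.D.τ ∘ w)) := rfl

/-- the word `w` does not fit to the factors of `P` -/
def Off (P : Prd m) (w : Fin P.size → H.I) : Prop := ∃ i, (H.D.typ (w i)).1 ≠ P.lw i

/-- the coordinates of the algebraic classes on products of `L` factors -/
def At (L : ℕ) : AddSubgroup (Ten H.I L) :=
  AddSubgroup.closure ({u | L = 0 ∧ ∃ q : ℚ, u = fun _ => (q : ℂ)} ∪
    {u | ∃ (P : Prd m) (h : P.size = L) (z : W.coh (P.obj H.X)), z ∈ tot W (P.obj H.X) ∧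
      u = fun w => H.tc P z (w ∘ Fin.cast h)})

/-- two products with the same factors in the same order (with different brackets) -/
def Rel (P Q : Prd m) : Prop :=
  ∃ (h : P.size = Q.size) (f : P.obj H.X ⟶ Q.obj H.X) (g : Q.obj H.X ⟶ P.obj H.X),
    (∀ w : Fin Q.size → H.I, W.pull f (H.E Q w) = H.E P (w ∘ Fin.cast h)) ∧
    (∀ w : Fin P.size → H.I, W.pull g (H.E P w) = H.E Q (w ∘ Fin.cast h.symm)) ∧
    ∀ i, P.lw i = Q.lw (Fin.cast h i)

/-- Row PGE: coordinates. -/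
structure GeFacts : Prop where
  expand : ∀ P z, z = ∑ w, H.tc P z w • H.E P w
  inj : ∀ P, Function.Injective (H.tc P)
  tc_outer : ∀ (P Q : Prd m) (y : W.coh (P.obj H.X)) (x : W.coh (Q.obj H.X)),
    H.tc (.prod P Q) (W.pull (fst (P.obj H.X) (Q.obj H.X)) y
      * W.pull (snd (P.obj H.X) (Q.obj H.X)) x) = outer (H.tc P y) (H.tc Q x)
  tc_off : ∀ P z w, H.Off P w → H.tc P z w = 0
  E_off : ∀ P w, H.Off P w → H.E P w = 0
  tc_sum : ∀ (P : Prd m) (u : Ten H.I P.size), (∀ w, H.Off P w → u w = 0) →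
    H.tc P (∑ w, u w • H.E P w) = u
  E_par : ∀ P w, H.E P w ∈ par W (P.obj H.X) (H.od w)
  tr_E : ∀ P w w', ¬ H.Off P w → ¬ H.Off P w' →
    W.tr (P.obj H.X) (H.E P w * H.E P w') =
      if w' = H.D.τ ∘ w then sg H.D w * sn (H.od w) else 0
  tr_tc : ∀ P z z', W.tr (P.obj H.X) (z * z') =
    ∑ w, sn (H.od w) * (sg H.D w * (H.tc P z w * H.tc P z' (H.D.τ ∘ w)))
  even : ∀ (P : Prd m) (z : W.coh (P.obj H.X)), z ∈ tot W (P.obj H.X) →
    ∀ w, H.tc P z w ≠ 0 → Even (H.od w)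
  /-- spanning by exterior products of basis vectors -/
  ind : ∀ (P : Prd m) (M : Submodule ℂ (W.coh (P.obj H.X))), (∀ w, H.E P w ∈ M) → M = ⊤

/-- Row PGR: change of the brackets. -/
structure RelFacts : Prop where
  refl : ∀ P, H.Rel P P
  symm : ∀ P Q, H.Rel P Q → H.Rel Q P
  trans : ∀ P Q R, H.Rel P Q → H.Rel Q R → H.Rel P R
  prod : ∀ P Q P' Q', H.Rel P P' → H.Rel Q Q' → H.Rel (.prod P Q) (.prod P' Q')
  assoc : ∀ P Q R, H.Rel (.prod (.prod P Q) R) (.prod P (.prod Q R))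
  split : ∀ (R : Prd m) (p c : ℕ), 0 < p → 0 < c → R.size = p + c →
    ∃ P Q : Prd m, P.size = p ∧ Q.size = c ∧ H.Rel R (.prod P Q)
  /-- all products with the same word of labels are related -/
  coh : ∀ (P Q : Prd m) (h : P.size = Q.size), (∀ i, P.lw i = Q.lw (Fin.cast h i)) → H.Rel P Q
  /-- the coordinates of algebraic classes do not depend on the brackets -/
  tc : ∀ (P Q : Prd m), H.Rel P Q → ∃ h : P.size = Q.size, ∀ z : W.coh (Q.obj H.X),
    z ∈ tot W (Q.obj H.X) → ∃ z' : W.coh (P.obj H.X), z' ∈ tot W (P.obj H.X) ∧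
      ∀ w, H.tc P z' w = H.tc Q z (w ∘ Fin.cast h.symm)

/-- Row PSL: multiplication by a rational function of the parities of the letters. -/
def SlotFacts : Prop :=
  ∀ (L : ℕ) (f : (Fin L → ℕ) → ℚ), ∀ u ∈ H.At L,
    (fun w => (f (fun i => (H.D.typ (w i)).2) : ℂ) * u w) ∈ H.At L

end PHost

end

/-! ### Statements of the rows -/

/-- Row PGB: adapted bases exist. -/
def PGbStatement : Prop :=
  ∀ {k : Type u} [Field k] {W : CohomologyData.{u, 0, w} k ℂ} {𝒱 : VarietyClass k}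
    (_ : IsWeilCohomology W 𝒱) {m : ℕ} {X : Fin m → Sch k} {n : Fin m → ℕ}
    (_ : ∀ a, 𝒱.mem (X a) (n a)) (_ : ∀ a, AlgPar W (X a)),
    ∃ H : PHost W 𝒱 m, H.X = X ∧ H.n = n

/-- Row PGE. -/
def PGeStatement : Prop :=
  ∀ {k : Type u} [Field k] {W : CohomologyData.{u, 0, w} k ℂ} {𝒱 : VarietyClass k} {m : ℕ}
    (H : PHost W 𝒱 m), H.GeFacts

/-- Row PGR. -/
def PGrStatement : Prop :=
  ∀ {k : Type u} [Field k] {W : CohomologyData.{u, 0, w} k ℂ} {𝒱 : VarietyClass k} {m : ℕ}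
    (H : PHost W 𝒱 m), H.RelFacts

/-- Row PSL (from PGE): slot operators (model: `GP.slotOp`, `GP.slot` in `FL/GeoPerm.lean`). -/
def PSlStatement : Prop :=
  ∀ {k : Type u} [Field k] {W : CohomologyData.{u, 0, w} k ℂ} {𝒱 : VarietyClass k} {m : ℕ}
    (H : PHost W 𝒱 m), H.SlotFacts

/-- Row PGP (from PGE, PGR, PSL): permutations (model: `FL/GeoPerm.lean`). -/
def PGpStatement : Prop :=
  ∀ {k : Type u} [Field k] {W : CohomologyData.{u, 0, w} k ℂ} {𝒱 : VarietyClass k} {m : ℕ}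
    (H : PHost W 𝒱 m) (L : ℕ) (σ : Equiv.Perm (Fin L)), ∀ u ∈ H.At L, permT σ u ∈ H.At L

/-- Row PGC (from PGE, PGR, PSL): contractions, `cont (sn · tc z) (tc y) = tc (pr₂_* (pr₁^* z y))`
(model: `FL/GC.lean`). -/
def PGcStatement : Prop :=
  ∀ {k : Type u} [Field k] {W : CohomologyData.{u, 0, w} k ℂ} {𝒱 : VarietyClass k} {m : ℕ}
    (H : PHost W 𝒱 m) (p c : ℕ), ∀ u ∈ H.At p, ∀ v ∈ H.At (p + c), cont H.D u v ∈ H.At c

/-- Row POM (from PGE, PSL): the invariant tensors of length two, from the class of the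
diagonal. -/
def POmStatement : Prop :=
  ∀ {k : Type u} [Field k] {W : CohomologyData.{u, 0, w} k ℂ} {𝒱 : VarietyClass k} {m : ℕ}
    (H : PHost W 𝒱 m) (α : Fin m × ℕ), om H.D α ∈ H.At 2

/-- Row PAS (from all rows): the system of the coordinates of the algebraic classes. -/
def PAsysStatement : Prop :=
  ∀ {k : Type u} [Field k] {W : CohomologyData.{u, 0, w} k ℂ} {𝒱 : VarietyClass k} {m : ℕ}
    (H : PHost W 𝒱 m), ASys H.D (fun L u => u ∈ H.At L)

end Pool.Agent.Lib.MP_361a6f_ag.FL
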