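import Pool.Agent.Lib.MP_361a6f_ag.FL.P.Par

/-!
# The pairing host, row PGE: coordinates of classes on products
-/

open CategoryTheory AlgebraicGeometry MonoidalCategory CartesianMonoidalCategory

universe u v w

set_option autoImplicit false
set_option linter.unusedSectionVars false

namespace Pool.Agent.Lib.MP_361a6f_ag.FL

open Pool.Agent.Lib.MP_361a6f_ag.H3 Pool.Agent.Lib.MP_361a6f_ag.SQ
  Pool.Agent.Lib.MP_361a6f_ag.PP

namespace PGe

variable {k : Type u} [Field k] {m : ℕ} {W : CohomologyData.{u, 0, w} k ℂ} {𝒱 : VarietyClass k}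
  (H : PHost W 𝒱 m)

/-! ### signs -/

theorem sg_mul_self {I Λ : Type} [Fintype I] [DecidableEq I] [DecidableEq Λ] (D : Dat I Λ)
    {L : ℕ} (w : Fin L → I) : sg D w * sg D w = 1 := by
  rw [sg, ← Finset.prod_mul_distrib]
  refine Finset.prod_eq_one (fun i _ => ?_)
  rcases D.s_val (w i) with h | h <;> rw [h] <;> norm_num

theorem sg_split {I Λ : Type} [Fintype I] [DecidableEq I] [DecidableEq Λ] (D : Dat I Λ)
    {p q : ℕ} (w : Fin (p + q) → I) : sg D w = sg D (fun i => w (Fin.castAdd q i))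
      * sg D (fun i => w (Fin.natAdd p i)) := by
  rw [sg, Fin.prod_univ_add]
  rfl

theorem sg_prod (P Q : Prd m) (w : Fin (Prd.prod P Q).size → H.I) :
    sg H.D w = sg H.D (fun i : Fin P.size => w (Fin.castAdd Q.size i))
      * sg H.D (fun i : Fin Q.size => w (Fin.natAdd P.size i)) :=
  sg_split (p := P.size) (q := Q.size) H.D w

theorem od_split {p q : ℕ} (w : Fin (p + q) → H.I) : H.od w = H.od (fun i => w (Fin.castAdd q i))
      + H.od (fun i => w (Fin.natAdd p i)) := by
  unfold PHost.od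
  rw [Fin.sum_univ_add]

theorem od_prod (P Q : Prd m) (w : Fin (Prd.prod P Q).size → H.I) :
    H.od w = H.od (fun i : Fin P.size => w (Fin.castAdd Q.size i))
      + H.od (fun i : Fin Q.size => w (Fin.natAdd P.size i)) :=
  od_split (p := P.size) (q := Q.size) H w

theorem od_tau {L : ℕ} (w : Fin L → H.I) : H.od (H.D.τ ∘ w) = H.od w := by
  unfold PHost.od
  exact Finset.sum_congr rfl (fun i _ => by rw [Function.comp_apply, H.D.typ_τ])

/-! ### words that do not fit -/

theorem off_prod (P Q : Prd m) (w : Fin (P.size + Q.size) → H.I) :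
    H.Off (.prod P Q) w ↔ H.Off P (fun i => w (Fin.castAdd Q.size i)) ∨
      H.Off Q (fun i => w (Fin.natAdd P.size i)) := by
  constructor
  · rintro ⟨i, hi⟩
    revert hi
    refine Fin.addCases (motive := fun i => (H.D.typ (w i)).1 ≠ (Prd.prod P Q).lw i →
      H.Off P (fun i => w (Fin.castAdd Q.size i)) ∨
      H.Off Q (fun i => w (Fin.natAdd P.size i))) ?_ ?_ i
    · intro j hj
      refine Or.inl ⟨j, ?_⟩
      have : (Prd.prod P Q).lw (Fin.castAdd Q.size j) = P.lw j := Fin.append_left _ _ _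
      rwa [this] at hj
    · intro j hj
      refine Or.inr ⟨j, ?_⟩
      have : (Prd.prod P Q).lw (Fin.natAdd P.size j) = Q.lw j := Fin.append_right _ _ _
      rwa [this] at hj
  · rintro (⟨j, hj⟩ | ⟨j, hj⟩)
    · refine ⟨Fin.castAdd Q.size j, ?_⟩
      have : (Prd.prod P Q).lw (Fin.castAdd Q.size j) = P.lw j := Fin.append_left _ _ _
      rw [this]
      exact hj
    · refine ⟨Fin.natAdd P.size j, ?_⟩
      have : (Prd.prod P Q).lw (Fin.natAdd P.size j) = Q.lw j := Fin.append_right _ _ _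
      rw [this]
      exact hj

theorem off_tau (P : Prd m) (w : Fin P.size → H.I) : H.Off P (H.D.τ ∘ w) ↔ H.Off P w := by
  constructor
  · rintro ⟨i, hi⟩
    exact ⟨i, by rwa [Function.comp_apply, H.D.typ_τ] at hi⟩
  · rintro ⟨i, hi⟩
    exact ⟨i, by rwa [Function.comp_apply, H.D.typ_τ]⟩

theorem E_off : ∀ (P : Prd m) (w : Fin P.size → H.I), H.Off P w → H.E P w = 0
  | .leaf a, w, h => by
    obtain ⟨i, hi⟩ := h
    have hi0 : i = ⟨0, Nat.one_pos⟩ := Subsingleton.elim (α := Fin 1) _ _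
    rw [hi0] at hi
    exact H.e_ne a _ hi
  | .prod P Q, w, h => by
    rcases (off_prod H P Q w).1 h with h | h
    · show W.pull (fst (P.obj H.X) (Q.obj H.X)) (H.E P (fun i => w (Fin.castAdd Q.size i)))
        * W.pull (snd (P.obj H.X) (Q.obj H.X)) (H.E Q (fun i => w (Fin.natAdd P.size i))) = 0
      rw [E_off P _ h, map_zero, zero_mul]
    · show W.pull (fst (P.obj H.X) (Q.obj H.X)) (H.E P (fun i => w (Fin.castAdd Q.size i)))
        * W.pull (snd (P.obj H.X) (Q.obj H.X)) (H.E Q (fun i => w (Fin.natAdd P.size i))) = 0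
      rw [E_off Q _ h, map_zero, mul_zero]

theorem E_prod (P Q : Prd m) (w : Fin (Prd.prod P Q).size → H.I) :
    H.E (.prod P Q) w
      = W.pull (fst (P.obj H.X) (Q.obj H.X)) (H.E P (fun i => w (Fin.castAdd Q.size i)))
        * W.pull (snd (P.obj H.X) (Q.obj H.X)) (H.E Q (fun i => w (Fin.natAdd P.size i))) := rfl

theorem E_par : ∀ (P : Prd m) (w : Fin P.size → H.I), H.E P w ∈ par W (P.obj H.X) (H.od w)
  | .leaf a, w => by
    have h : H.od w = (H.D.typ (w ⟨0, Nat.one_pos⟩)).2 := by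
      show ∑ i : Fin 1, (H.D.typ (w i)).2 = _
      rw [Fin.sum_univ_one]
      rfl
    rw [h]
    exact H.e_par a _
  | .prod P Q, w => by
    have hp := 𝒱.prod (H.memP P) (H.memP Q)
    rw [od_prod H P Q w, E_prod]
    exact Par.mul H.hW hp (Par.pull H.hW hp (H.memP P) _ (E_par P _))
      (Par.pull H.hW hp (H.memP Q) _ (E_par Q _))

theorem tr_E : ∀ (P : Prd m) (w w' : Fin P.size → H.I), ¬ H.Off P w → ¬ H.Off P w' →
    W.tr (P.obj H.X) (H.E P w * H.E P w') =
      if w' = H.D.τ ∘ w then sg H.D w * sn (H.od w) else 0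
  | .leaf a, w, w', h, h' => by
    have h1 : (H.D.typ (w ⟨0, Nat.one_pos⟩)).1 = a := by
      by_contra hn
      exact h ⟨⟨0, Nat.one_pos⟩, hn⟩
    have h2 : (H.D.typ (w' ⟨0, Nat.one_pos⟩)).1 = a := by
      by_contra hn
      exact h' ⟨⟨0, Nat.one_pos⟩, hn⟩
    have h3 := H.e_tr a _ _ h1 h2
    have h4 : (w' = H.D.τ ∘ w) ↔ w' ⟨0, Nat.one_pos⟩ = H.D.τ (w ⟨0, Nat.one_pos⟩) := by
      constructor
      · intro e
        rw [e]
        rfl
      · intro e
        funext i
        have hi0 : i = ⟨0, Nat.one_pos⟩ := Subsingleton.elim (α := Fin 1) _ _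
        rw [hi0]
        exact e
    have h5 : sg H.D w = H.D.s (w ⟨0, Nat.one_pos⟩) := by
      show ∏ i : Fin 1, H.D.s (w i) = _
      rw [Fin.prod_univ_one]
      rfl
    have h6 : sn (H.od w) = 1 := by
      have h7 : H.od w = (H.D.typ (w ⟨0, Nat.one_pos⟩)).2 := by
        show ∑ i : Fin 1, (H.D.typ (w i)).2 = _
        rw [Fin.sum_univ_one]
        rfl
      rw [h7]
      have h8 := H.lt_two (w ⟨0, Nat.one_pos⟩)
      interval_cases (H.D.typ (w ⟨0, Nat.one_pos⟩)).2 <;> simp [sn]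
    show W.tr (H.X a) (H.e a (w ⟨0, Nat.one_pos⟩) * H.e a (w' ⟨0, Nat.one_pos⟩)) = _
    rw [h3, h5, h6, mul_one]
    simp only [h4]
  | .prod P Q, w, w', h, h' => by
    have h1 := (off_prod H P Q w).not.1 h
    have h2 := (off_prod H P Q w').not.1 h'
    push Not at h1 h2
    rw [E_prod, E_prod]
    have h0 := Par.tr_four H.hW (H.memP P) (H.memP Q)
      (H.E P (fun i => w (Fin.castAdd Q.size i))) (H.E P (fun i => w' (Fin.castAdd Q.size i)))
      (H.E Q (fun i => w (Fin.natAdd P.size i))) (H.E Q (fun i => w' (Fin.natAdd P.size i)))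
      (E_par H Q _) (E_par H P _)
    refine h0.trans ?_
    rw [tr_E P _ _ h1.1 h2.1, tr_E Q _ _ h1.2 h2.2]
    have h3 : (w' = H.D.τ ∘ w) ↔ ((fun i => w' (Fin.castAdd Q.size i))
        = H.D.τ ∘ (fun i => w (Fin.castAdd Q.size i))) ∧
        ((fun i => w' (Fin.natAdd P.size i)) = H.D.τ ∘ (fun i => w (Fin.natAdd P.size i))) := by
      constructor
      · intro e
        rw [e]
        exact ⟨rfl, rfl⟩
      · rintro ⟨e1, e2⟩
        funext i
        refine Fin.addCases (motive := fun i => w' i = (H.D.τ ∘ w) i) ?_ ?_ i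
        · intro j
          exact congrFun e1 j
        · intro j
          exact congrFun e2 j
    rw [sg_prod H P Q w, od_prod H P Q w, sn_add]
    by_cases e1 : (fun i => w' (Fin.castAdd Q.size i))
        = H.D.τ ∘ (fun i => w (Fin.castAdd Q.size i))
    · by_cases e2 : (fun i => w' (Fin.natAdd P.size i))
          = H.D.τ ∘ (fun i => w (Fin.natAdd P.size i))
      · rw [if_pos e1, if_pos e2, if_pos (h3.2 ⟨e1, e2⟩), e1, od_tau,
          mul_comm (H.od fun i => w (Fin.natAdd P.size i))]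
        ring
      · rw [if_neg e2, if_neg (fun e => e2 (h3.1 e).2), mul_zero, mul_zero]
    · rw [if_neg e1, if_neg (fun e => e1 (h3.1 e).1), zero_mul, mul_zero]

theorem ind : ∀ (P : Prd m) (M : Submodule ℂ (W.coh (P.obj H.X))), (∀ w, H.E P w ∈ M) → M = ⊤
  | .leaf a, M, h => by
    refine top_le_iff.1 ?_
    have : Submodule.span ℂ (Set.range (H.e a)) ≤ M := by
      refine Submodule.span_le.2 ?_
      rintro _ ⟨x, rfl⟩
      exact h (fun _ => x)
    rw [H.e_span a] at this
    exact this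
  | .prod P Q, M, h => by
    have h1 : ∀ (w₂ : Fin Q.size → H.I) (y : W.coh (P.obj H.X)),
        W.pull (fst (P.obj H.X) (Q.obj H.X)) y
          * W.pull (snd (P.obj H.X) (Q.obj H.X)) (H.E Q w₂) ∈ M := by
      intro w₂ y
      have := ind P (M.comap ((LinearMap.mulRight ℂ
        (W.pull (snd (P.obj H.X) (Q.obj H.X)) (H.E Q w₂))) ∘ₗ
          (W.pull (fst (P.obj H.X) (Q.obj H.X))).toLinearMap)) (by
        intro w₁
        have h2 := h (Fin.append w₁ w₂)
        have h3 : H.E (.prod P Q) (Fin.append w₁ w₂) = W.pull (fst (P.obj H.X) (Q.obj H.X))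
            (H.E P w₁) * W.pull (snd (P.obj H.X) (Q.obj H.X)) (H.E Q w₂) := by
          show W.pull (fst (P.obj H.X) (Q.obj H.X))
              (H.E P (fun i => Fin.append w₁ w₂ (Fin.castAdd Q.size i)))
            * W.pull (snd (P.obj H.X) (Q.obj H.X))
              (H.E Q (fun i => Fin.append w₁ w₂ (Fin.natAdd P.size i))) = _
          simp only [Fin.append_left, Fin.append_right]
        rw [h3] at h2
        exact h2)
      have hy : y ∈ (⊤ : Submodule ℂ (W.coh (P.obj H.X))) := trivial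
      rw [← this] at hy
      exact hy
    have h2 : ∀ (y : W.coh (P.obj H.X)) (x : W.coh (Q.obj H.X)),
        W.pull (fst (P.obj H.X) (Q.obj H.X)) y * W.pull (snd (P.obj H.X) (Q.obj H.X)) x ∈ M := by
      intro y x
      have := ind Q (M.comap ((LinearMap.mulLeft ℂ
        (W.pull (fst (P.obj H.X) (Q.obj H.X)) y)) ∘ₗ
          (W.pull (snd (P.obj H.X) (Q.obj H.X))).toLinearMap)) (fun w₂ => h1 w₂ y)
      have hx : x ∈ (⊤ : Submodule ℂ (W.coh (Q.obj H.X))) := trivial
      rw [← this] at hx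
      exact hx
    refine top_le_iff.1 ?_
    have h3 := H.hW.kunneth_span (H.memP P) (H.memP Q)
    have h4 : Submodule.span ℂ {z | ∃ (x : W.coh (P.obj H.X)) (y : W.coh (Q.obj H.X)),
      z = W.pull (fst (P.obj H.X) (Q.obj H.X)) x * W.pull (snd (P.obj H.X) (Q.obj H.X)) y} ≤ M := by
      refine Submodule.span_le.2 ?_
      rintro _ ⟨x, y, rfl⟩
      exact h2 x y
    rw [h3] at h4
    exact h4

theorem tc_off (P : Prd m) (z : W.coh (P.obj H.X)) (w : Fin P.size → H.I) (h : H.Off P w) :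
    H.tc P z w = 0 := by
  rw [PHost.tc_apply, E_off H P _ ((off_tau H P w).2 h), mul_zero, map_zero, mul_zero]

theorem tc_E (P : Prd m) (w₀ w : Fin P.size → H.I) (h₀ : ¬ H.Off P w₀) :
    H.tc P (H.E P w₀) w = if w = w₀ then 1 else 0 := by
  by_cases h : H.Off P w
  · rw [tc_off H P _ w h, if_neg]
    rintro rfl
    exact h₀ h
  · rw [PHost.tc_apply, tr_E H P _ _ h₀ (fun h' => h ((off_tau H P w).1 h'))]
    by_cases e : w = w₀
    · rw [e, if_pos rfl, if_pos rfl]
      have h1 := sg_mul_self H.D w₀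
      have h2 := sn_mul_self (H.od w₀)
      linear_combination (sn (H.od w₀) * sn (H.od w₀)) * h1 + h2
    · rw [if_neg e, if_neg, mul_zero]
      intro e'
      apply e
      funext i
      have := congrFun e' i
      simp only [Function.comp_apply] at this
      rw [← H.D.τ_τ (w i), this, H.D.τ_τ]

theorem expand (P : Prd m) (z : W.coh (P.obj H.X)) : z = ∑ w, H.tc P z w • H.E P w := by
  have h := ind H P (LinearMap.eqLocus (LinearMap.id) (∑ w, ((LinearMap.proj w ∘ₗ H.tc P :
    W.coh (P.obj H.X) →ₗ[ℂ] ℂ)).smulRight (H.E P w))) (by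
      intro w₀
      rw [LinearMap.mem_eqLocus]
      simp only [LinearMap.id_apply, LinearMap.sum_apply, LinearMap.smulRight_apply,
        LinearMap.comp_apply, LinearMap.proj_apply]
      by_cases h₀ : H.Off P w₀
      · rw [E_off H P w₀ h₀, map_zero]
        simp
      · rw [Finset.sum_eq_single w₀]
        · rw [tc_E H P w₀ w₀ h₀, if_pos rfl, one_smul]
        · intro w _ hw
          rw [tc_E H P w₀ w h₀, if_neg hw, zero_smul]
        · intro h
          exact absurd (Finset.mem_univ _) h)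
  have hz : z ∈ (⊤ : Submodule ℂ (W.coh (P.obj H.X))) := trivial
  rw [← h, LinearMap.mem_eqLocus] at hz
  simpa only [LinearMap.id_apply, LinearMap.sum_apply, LinearMap.smulRight_apply,
        LinearMap.comp_apply, LinearMap.proj_apply] using hz

theorem inj (P : Prd m) : Function.Injective (H.tc P) := by
  intro z z' h
  rw [expand H P z, expand H P z', h]

theorem tc_outer_par (P Q : Prd m) (y : W.coh (P.obj H.X)) {p : ℕ} (x : W.coh (Q.obj H.X))
    (hx : x ∈ par W (Q.obj H.X) p) (w : Fin (P.size + Q.size) → H.I) :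
    sg H.D w * sn (H.od w) * W.tr (P.obj H.X ⊗ Q.obj H.X)
      ((W.pull (fst (P.obj H.X) (Q.obj H.X)) y * W.pull (snd (P.obj H.X) (Q.obj H.X)) x)
        * (W.pull (fst (P.obj H.X) (Q.obj H.X))
            (H.E P (H.D.τ ∘ fun i => w (Fin.castAdd Q.size i)))
          * W.pull (snd (P.obj H.X) (Q.obj H.X))
            (H.E Q (H.D.τ ∘ fun i => w (Fin.natAdd P.size i)))))
      = H.tc P y (fun i => w (Fin.castAdd Q.size i))
        * H.tc Q x (fun i => w (Fin.natAdd P.size i)) := by
  rw [Par.tr_four H.hW (H.memP P) (H.memP Q) _ _ _ _ hx (E_par H P _), PHost.tc_apply,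
    PHost.tc_apply, od_tau, od_split H w, sn_add]
  have hsg := sg_split H.D w
  rw [hsg]
  set a := H.od (fun i => w (Fin.castAdd Q.size i)) with ha
  set b := H.od (fun i => w (Fin.natAdd P.size i)) with hb
  by_cases h : p % 2 = b % 2
  · have h1 : (-1 : ℂ) ^ (a * b) * (-1) ^ (p * a) = 1 := by
      rw [← pow_add, Par.pow_congr (a := a * b + p * a) (b := 0), pow_zero]
      have h2 : p * a % 2 = a * b % 2 := by
        rw [mul_comm a b, Nat.mul_mod, h, ← Nat.mul_mod]
      omega
    linear_combination (sg H.D (fun i => w (Fin.castAdd Q.size i))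
      * sg H.D (fun i => w (Fin.natAdd P.size i)) * sn a * sn b
      * W.tr (P.obj H.X) (y * H.E P (H.D.τ ∘ fun i => w (Fin.castAdd Q.size i)))
      * W.tr (Q.obj H.X) (x * H.E Q (H.D.τ ∘ fun i => w (Fin.natAdd P.size i)))) * h1
  · have h3 : W.tr (Q.obj H.X) (x * H.E Q (H.D.τ ∘ fun i => w (Fin.natAdd P.size i))) = 0 := by
      have h4 := E_par H Q (H.D.τ ∘ fun i => w (Fin.natAdd P.size i))
      rw [od_tau] at h4
      refine Par.tr H.hW (H.memP Q) (b := p + b) ?_ (Par.mul H.hW (H.memP Q) hx h4)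
      rw [Nat.odd_iff]
      omega
    rw [h3]
    ring

theorem tc_outer_all (P Q : Prd m) (y : W.coh (P.obj H.X)) (x : W.coh (Q.obj H.X))
    (w : Fin (P.size + Q.size) → H.I) :
    sg H.D w * sn (H.od w) * W.tr (P.obj H.X ⊗ Q.obj H.X)
      ((W.pull (fst (P.obj H.X) (Q.obj H.X)) y * W.pull (snd (P.obj H.X) (Q.obj H.X)) x)
        * (W.pull (fst (P.obj H.X) (Q.obj H.X))
            (H.E P (H.D.τ ∘ fun i => w (Fin.castAdd Q.size i)))
          * W.pull (snd (P.obj H.X) (Q.obj H.X))
            (H.E Q (H.D.τ ∘ fun i => w (Fin.natAdd P.size i)))))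
      = H.tc P y (fun i => w (Fin.castAdd Q.size i))
        * H.tc Q x (fun i => w (Fin.natAdd P.size i)) := by
  have hx : x ∈ par W (Q.obj H.X) 0 ⊔ par W (Q.obj H.X) 1 := by
    rw [Par.sup H.hW (H.memP Q)]; trivial
  obtain ⟨x0, h0, x1, h1, rfl⟩ := Submodule.mem_sup.1 hx
  have e0 := tc_outer_par H P Q y x0 h0 w
  have e1 := tc_outer_par H P Q y x1 h1 w
  rw [map_add, mul_add, add_mul, map_add, mul_add, e0, e1, map_add, Pi.add_apply, mul_add]

theorem tc_outer (P Q : Prd m) (y : W.coh (P.obj H.X)) (x : W.coh (Q.obj H.X)) :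
    H.tc (.prod P Q) (W.pull (fst (P.obj H.X) (Q.obj H.X)) y
      * W.pull (snd (P.obj H.X) (Q.obj H.X)) x) = outer (H.tc P y) (H.tc Q x) := by
  funext w
  exact tc_outer_all H P Q y x w

theorem tc_sum (P : Prd m) (u : Ten H.I P.size) (hu : ∀ w, H.Off P w → u w = 0) :
    H.tc P (∑ w, u w • H.E P w) = u := by
  funext w₀
  rw [map_sum, Finset.sum_apply, Finset.sum_eq_single w₀]
  · rw [map_smul, Pi.smul_apply, smul_eq_mul]
    by_cases h : H.Off P w₀
    · rw [hu w₀ h, zero_mul]
    · rw [tc_E H P w₀ w₀ h, if_pos rfl, mul_one]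
  · intro w _ hw
    rw [map_smul, Pi.smul_apply, smul_eq_mul]
    by_cases h : H.Off P w
    · rw [hu w h, zero_mul]
    · rw [tc_E H P w w₀ h, if_neg (fun e => hw e.symm), mul_zero]
  · intro h
    exact absurd (Finset.mem_univ _) h

theorem tr_tc (P : Prd m) (z z' : W.coh (P.obj H.X)) : W.tr (P.obj H.X) (z * z') =
    ∑ w, sn (H.od w) * (sg H.D w * (H.tc P z w * H.tc P z' (H.D.τ ∘ w))) := by
  have h1 : ∀ w, sn (H.od w) * (sg H.D w * (H.tc P z w * H.tc P z' (H.D.τ ∘ w)))
      = H.tc P z w * W.tr (P.obj H.X) (H.E P w * z') := by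
    intro w
    by_cases h : H.Off P w
    · rw [tc_off H P z w h]
      ring
    · have h2 : W.tr (P.obj H.X) (H.E P w * z')
          = sn (H.od w) * (sg H.D w * H.tc P z' (H.D.τ ∘ w)) := by
        conv_lhs => rw [expand H P z']
        rw [Finset.mul_sum, map_sum, Finset.sum_eq_single (H.D.τ ∘ w)]
        · rw [mul_smul_comm, map_smul, tr_E H P _ _ h (fun h' => h ((off_tau H P w).1 h')),
            if_pos rfl, smul_eq_mul]
          ring
        · intro w' _ hw'
          rw [mul_smul_comm, map_smul, smul_eq_mul]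
          by_cases h3 : H.Off P w'
          · rw [tc_off H P z' w' h3, zero_mul]
          · rw [tr_E H P _ _ h h3, if_neg hw', mul_zero]
        · intro h
          exact absurd (Finset.mem_univ _) h
      rw [h2]
      ring
  simp only [h1]
  conv_lhs => rw [expand H P z]
  rw [Finset.sum_mul, map_sum]
  exact Finset.sum_congr rfl (fun w _ => by rw [smul_mul_assoc, map_smul, smul_eq_mul])

theorem even (P : Prd m) (z : W.coh (P.obj H.X)) (hz : z ∈ tot W (P.obj H.X))
    (w : Fin P.size → H.I) (hw : H.tc P z w ≠ 0) : Even (H.od w) := by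
  by_contra hodd
  apply hw
  have hP := H.memP P
  have hE := E_par H P (H.D.τ ∘ w)
  rw [od_tau] at hE
  have h1 := Par.mul H.hW hP (Par.tot_le H.hW hP hz) hE
  rw [zero_add] at h1
  rw [PHost.tc_apply, Par.tr H.hW hP (Nat.not_even_iff_odd.1 hodd) h1, mul_zero]

end PGe

/-- Row PGE. -/
theorem pge : PGeStatement.{u, w} := by
  intro k _ W 𝒱 m H
  exact ⟨PGe.expand H, PGe.inj H, PGe.tc_outer H, fun P z w h => PGe.tc_off H P z w h, PGe.E_off H,
    PGe.tc_sum H, PGe.E_par H, PGe.tr_E H, PGe.tr_tc H, PGe.even H, PGe.ind H⟩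

end Pool.Agent.Lib.MP_361a6f_ag.FL
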