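import Pool.Agent.Lib.MP_361a6f_ag.FL.S.Stat
import Pool.Agent.Lib.MP_361a6f_ag.FL.B.UnL

/-!
# Algebraicity of the even Kuenneth projector, and the growth of the rank: statements
-/

open CategoryTheory AlgebraicGeometry MonoidalCategory CartesianMonoidalCategory

universe u v w

namespace Pool.Agent.Lib.MP_361a6f_ag.FL

open Pool.Agent.Lib.MP_361a6f_ag.H3 Pool.Agent.Lib.MP_361a6f_ag.SQ
  Pool.Agent.Lib.MP_361a6f_ag.PP

noncomputable section

variable {k : Type u} [Field k]

/-- The operator `p(F^*)` on `H^*(X)`, for an endomorphism `F` of `X` and a polynomial `p` with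
rational coefficients. -/
def polyPb (W : CohomologyData.{u, 0, w} k ℂ) {X : Sch k} (F : Sch.Mor X X) (p : Polynomial ℚ) :
    Module.End ℂ (W.coh X) :=
  Polynomial.aeval ((W.pull F).toLinearMap : Module.End ℂ (W.coh X)) (p.map (algebraMap ℚ ℂ))

/-- There are coprime polynomials `p`, `q` with rational coefficients such that `p(F^*) = 0` on the
cohomology of even degree and `q(F^*) = 0` on the cohomology of odd degree. -/
def SeparatesParity (W : CohomologyData.{u, 0, w} k ℂ) {X : Sch k} (F : Sch.Mor X X) : Prop :=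
  ∃ p q : Polynomial ℚ, IsCoprime p q ∧
    (∀ i x, Even i → W.Deg X i x → polyPb W F p x = 0) ∧
    ∀ i x, Odd i → W.Deg X i x → polyPb W F q x = 0

end

/-- **The even Kuenneth projector** is algebraic if an endomorphism separates the even and the odd
cohomology, and for varieties with a unital law, `H^0 = ℂ` and a divisor class of positive degree
(in particular for abelian varieties). -/
def ProjectorStatement : Prop :=
  ∀ {k : Type u} [Field k] (W : CohomologyData.{u, 0, w} k ℂ) (𝒱 : VarietyClass k)
    (_ : IsWeilCohomology W 𝒱) {X : Sch k} {e : ℕ} (_ : 𝒱.mem X e),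
    (∀ F : Sch.Mor X X, SeparatesParity W F → EvenProjector W X e) ∧
    (UnitalLaw X → (∀ x, W.Deg X 0 x → ∃ c : ℂ, x = W.scal c 1) →
      ∀ y, PositiveDivisor W X e y → EvenProjector W X e)

/-- **The growth of the rank.** For all `d` there are `c > 0` and `E` such that for every variety
`X` with `dim H^*(X) = d` whose even Kuenneth projector is algebraic, the rank of the intersection
form on the algebraic classes of the product of `n` copies of `X` is at least `c n^(-E) d^n`. -/
def RankGrowthStatement : Prop :=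
  ∀ d : ℕ, ∃ c : ℝ, 0 < c ∧ ∃ E : ℕ, ∀ {k : Type u} [Field k]
    (W : CohomologyData.{u, 0, w} k ℂ) (𝒱 : VarietyClass k) (_ : IsWeilCohomology W 𝒱)
    {X : Sch k} {e : ℕ} (_ : 𝒱.mem X e) (_ : EvenProjector W X e)
    (_ : Module.finrank ℂ (W.coh X) = d) (P : Prd 1),
    c * (d : ℝ) ^ P.size ≤ (P.size : ℝ) ^ E * rankN W (P.obj fun _ => X)

end Pool.Agent.Lib.MP_361a6f_ag.FL
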